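import Pool.Agent.K3h36.RH.Idx1
import Pool.Agent.Y23.F.As

/-! # The index of the Weil form and separated zeros off the line -/

set_option autoImplicit false
set_option linter.unusedSectionVars false
set_option maxHeartbeats 2000000

open Complex Filter Topology Set MeasureTheory Metric
open scoped ComplexConjugate
open Pool.Agent.W169.HF H353.E Pool.Agent.W355.UN Pool.Agent.TH839.NA

namespace Pool.Agent.Y23.G.F.K36

variable [L : LFun]

/-- local data at every zero off the line -/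
theorem loc_exists {ω θ u τ0 : ℝ} (hθ : 0 ≤ θ) (hω : θ < Real.pi * ω) (hu0 : 0 ≤ u) (hτ0 : 0 < τ0) (H : TDn ω θ u) :
    ∃ τ κ A : ℝ, 0 < τ ∧ 0 < κ ∧ 1 ≤ A ∧ ∀ a : ℝ, A ≤ a → ∀ ν : ℕ∞, big ω a ν →
      ∀ w0 : ℂ, L.X (1 / 2 + w0) = 0 → |w0.im| ≤ θ * Real.exp (2 * a / L.m) →
        ∃ (l : List ℂ) (F H : ℝ → ℂ), w0 ∈ l ∧ (∀ z ∈ l, ‖z - w0‖ ≤ Real.exp (-(κ * Real.exp (2 * a / L.m) / a)) / 8) ∧
          Loc a ν (Real.exp (-(τ * Real.exp (2 * a / L.m)))) (Real.exp (2 * ((u + τ0) * Real.exp (2 * a / L.m)))) l F H := by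
  have hm := m_one (L := L)
  have hm0 : (0 : ℝ) < L.m := by linarith
  obtain ⟨A5, hA5, hgap5⟩ := big_gap (L := L) hω
  obtain ⟨q, M, A1, c2', hq, hM, hA1, hc2', htest⟩ := H
  obtain ⟨K, hK, hcl⟩ := cluster (L := L)
  obtain ⟨ε, hε1, hε2⟩ := X_fe (L := L)
  have hlog3 : 0 ≤ Real.log (3 + θ) := Real.log_nonneg (by linarith)
  set M1 : ℝ := Real.log (3 + θ) + 2 with hM1
  have hM10 : 2 ≤ M1 := by linarith
  set b0 : ℝ := Real.log (16 * (q + 1)) with hb0
  have hb00 : 0 ≤ b0 := Real.log_nonneg (by linarith)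
  have hlog8 : 0 < Real.log 8 := Real.log_pos (by norm_num)
  have hlog48 : 0 < Real.log 48 := Real.log_pos (by norm_num)
  have hlog23 : 0 < Real.log 2304 := Real.log_pos (by norm_num)
  have hKM : 0 < K * M1 := by positivity
  set C2 : ℝ := Real.log 8 + (K * M1 + b0) * (K * M1 + 1) with hC2
  have hC20 : 0 ≤ C2 := by positivity
  set C4 : ℝ := M + K * M1 + K * M1 * C2 with hC4
  have hC40 : 0 ≤ C4 := by positivity
  set τ : ℝ := min τ0 (c2' - u) / 4 with hτ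
  have hmin0 : 0 < min τ0 (c2' - u) := lt_min hτ0 (by linarith)
  have hτp : 0 < τ := by rw [hτ]; linarith
  have hτa : 4 * τ ≤ τ0 := by rw [hτ]; linarith [min_le_left τ0 (c2' - u)]
  have hτb : 4 * τ ≤ c2' - u := by rw [hτ]; linarith [min_le_right τ0 (c2' - u)]
  set κ : ℝ := τ / (K * M1) with hκ
  have hκ0 : 0 < κ := by positivity
  have hκe : K * M1 * κ = τ := by rw [hκ]; field_simp
  set T1 : ℝ := Real.log 8 + K * M1 * (Real.log 48 + 2) + M + C4 with hT1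
  set T3 : ℝ := K * M1 * (Real.log 2304 + 6) + 2 * M + 2 * C4 with hT3
  obtain ⟨A3, hA3, hd1⟩ := exp_dom (L := L) (2 * τ) T1 (by positivity)
  obtain ⟨A4, hA4, hd2⟩ := exp_dom (L := L) τ0 T3 (by positivity)
  refine ⟨τ, κ, max A1 (max (max A3 A4) A5), hτp, hκ0, le_max_of_le_left hA1, fun a ha ν hν w0 hw0 hγ => ?_⟩
  have haA1 : A1 ≤ a := (le_max_left _ _).trans ha
  have haA3 : A3 ≤ a := (le_max_left A3 A4).trans ((le_max_left _ _).trans ((le_max_right _ _).trans ha))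
  have haA4 : A4 ≤ a := (le_max_right A3 A4).trans ((le_max_left _ _).trans ((le_max_right _ _).trans ha))
  have haA5 : A5 ≤ a := (le_max_right (max A3 A4) _).trans ((le_max_right _ _).trans ha)
  have ha1 : 1 ≤ a := hA1.trans haA1
  have ha0 : 0 < a := by linarith
  set E : ℝ := Real.exp (2 * a / L.m) with hE
  have hE1 : 1 ≤ E := Real.one_le_exp (by positivity)
  have hE0 : 0 < E := by linarith
  set d0 : ℝ := Real.exp (-(κ * E / a)) with hd0
  have hd00 : 0 < d0 := Real.exp_pos _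
  have hd01 : d0 ≤ 1 := Real.exp_le_one_iff.2 (by have : 0 ≤ κ * E / a := by positivity
                                                  linarith)
  set δ : ℝ := d0 / 8 with hδ
  have hδ0 : 0 < δ := by positivity
  have hδ8 : δ ≤ 1 / 8 := by rw [hδ]; linarith
  have hlogδ : Real.log δ = -(κ * E / a) - Real.log 8 := by
    rw [hδ, Real.log_div hd00.ne' (by norm_num), hd0, Real.log_exp]
  set γ : ℝ := w0.im with hγdef
  set Λ : ℝ := Lg γ with hΛ
  have hΛ1 : 1 ≤ Λ := one_le_Lg γ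
  have hre1 : |w0.re| ≤ 1 := by
    have := X_strip hw0
    simpa using this
  -- the size of the logarithm
  have hΛa : Λ ≤ M1 * a := by
    rw [hΛ]
    unfold Lg
    have h1 : 3 + |γ| ≤ (3 + θ) * E := num8 hE1 hγ
    have h2 := Real.log_le_log (by positivity) h1
    rw [Real.log_mul (by positivity) (by positivity), hE, Real.log_exp] at h2
    have h3 : 2 * a / (L.m : ℝ) ≤ 2 * a := div_le_self (by positivity) hm
    rw [hM1]
    exact h2.trans (num9 ha1 hlog3 h3)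
  set P : ℝ := K * M1 * a with hP
  have hP0 : 0 < P := by positivity
  have hKΛ : K * Λ ≤ P := by
    rw [hP, mul_assoc]
    exact mul_le_mul_of_nonneg_left hΛa (by linarith)
  -- the cluster
  set B : ℝ := K * Λ + b0 with hB
  have hB00 : 0 ≤ B := by positivity
  obtain ⟨l, G, δ', hδ'0, hBδ', hδ'low, hlen, hw0l, hlmem, hGd, hXG, hGlow, hGball⟩ := hcl w0 δ B hre1 hw0 hδ0 hδ8 hB00
  rw [← hγdef, ← hΛ] at hδ'low hlen hGlow hGball
  obtain ⟨g, Q, R, q0, hq0, hg, hQ, hR, hT, hRb, hN2, hQlow, hQup, hXlow⟩ := htest a haA1 ν hν γ hγ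
  set s : ℝ := Real.exp (M * a - c2' * E) with hs
  have hs0 : 0 ≤ s := by positivity
  set Y : ℝ := Real.exp (2 * M * a) with hY
  have hMa : 0 ≤ M * a := by positivity
  have hsY : s ^ 2 ≤ Y := by
    rw [hs, hY, ← Real.exp_nat_mul]
    apply Real.exp_le_exp.2
    push_cast
    have : 0 ≤ c2' * E := mul_nonneg (by linarith) hE0.le
    linarith
  have hgY : N2 g ≤ Y := hN2.trans (Real.exp_le_exp.2 (by linarith))
  -- the lower bound for G
  have hlogδ' : -(κ * E / a) - C2 * a ^ 2 ≤ Real.log δ' := by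
    have h1 := Real.log_le_log (by positivity) hδ'low
    rw [Real.log_mul hδ0.ne' (Real.exp_pos _).ne', Real.log_exp, hlogδ] at h1
    exact num12 ha1 hb00 (by positivity) hKΛ hKM.le hlog8.le hB hC2 h1
  have hδ'δ : δ' ≤ δ := num7 (Real.one_le_exp hB00) hBδ' hδ'0
  have hδ'1 : δ' ≤ 1 := hδ'δ.trans (hδ8.trans (by norm_num))
  have hlogδ'0 : Real.log δ' ≤ 0 := Real.log_nonpos hδ'0.le hδ'1
  set v : ℝ := q0 * ‖G w0‖ with hv
  have hG1 : Real.exp (-((u + τ) * E + C4 * a ^ 3)) ≤ v := by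
    refine le_trans ?_ (mul_le_mul_of_nonneg_left hGlow hq0.le)
    have h3 : Real.exp (-P) ≤ Real.exp (-(K * Λ)) := Real.exp_le_exp.2 (by linarith)
    have h4 : Real.exp (-(K * M1 * κ * E + K * M1 * C2 * a ^ 3)) ≤ Real.exp (K * Λ * Real.log δ') := by
      apply Real.exp_le_exp.2
      have h5 : P * Real.log δ' ≤ K * Λ * Real.log δ' := mul_le_mul_of_nonpos_right hKΛ hlogδ'0
      have h6 : P * (-(κ * E / a) - C2 * a ^ 2) ≤ P * Real.log δ' := mul_le_mul_of_nonneg_left hlogδ' hP0.le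
      have h7 : P * (-(κ * E / a) - C2 * a ^ 2) = -(K * M1 * κ * E + K * M1 * C2 * a ^ 3) := by
        rw [hP]; field_simp; ring
      linarith
    calc Real.exp (-((u + τ) * E + C4 * a ^ 3)) = Real.exp (-((u + K * M1 * κ) * E + C4 * a ^ 3)) := by rw [hκe]
      _ ≤ Real.exp (-(u * E) - M * a) * Real.exp (-P) * Real.exp (-(K * M1 * κ * E + K * M1 * C2 * a ^ 3)) := by
          rw [← Real.exp_add, ← Real.exp_add]
          exact Real.exp_le_exp.2 (num3' ha1 hM hKM.le hP hC4)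
      _ ≤ (q0 * ‖L.X (ctr γ)‖) * Real.exp (-(K * Λ)) * Real.exp (K * Λ * Real.log δ') :=
          mul_le_mul (mul_le_mul hXlow h3 (Real.exp_pos _).le (by positivity)) h4 (Real.exp_pos _).le (by positivity)
      _ = _ := by ring
  have hv0 : 0 < v := lt_of_lt_of_le (Real.exp_pos _) hG1
  -- the two values
  have hrefl_re : (-conj w0).re = -w0.re := by simp
  have hrefl_im : (-conj w0).im = γ := by simp [hγdef]
  have hQ1 := hQlow w0 hre1 rfl
  have hQ2 := hQlow (-conj w0) (by rw [hrefl_re, abs_neg]; exact hre1) hrefl_im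
  set S1 : ℝ := ‖Q w0 * G w0‖ with hS1
  set S2 : ℝ := ‖Q (-conj w0) * G w0‖ with hS2
  have hS1g : v ≤ S1 := by
    rw [hS1, hv, norm_mul]; exact mul_le_mul_of_nonneg_right hQ1 (norm_nonneg _)
  have hS2g : v ≤ S2 := by
    rw [hS2, hv, norm_mul]; exact mul_le_mul_of_nonneg_right hQ2 (norm_nonneg _)
  -- the length
  set n : ℕ := l.length with hn
  have hnP : (n : ℝ) ≤ P := hlen.trans hKΛ
  obtain ⟨ha31, ha3⟩ := cube_ge ha1
  have ha23 : a ^ 2 ≤ a ^ 3 := pow_le_pow_right₀ ha1 (by norm_num)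
  have hpown : ∀ x : ℝ, 0 < x → 0 ≤ Real.log x → x ^ n ≤ Real.exp (P * Real.log x) := by
    intro x hx hlx
    have e : x ^ n = Real.exp ((n : ℝ) * Real.log x) := by rw [Real.exp_nat_mul, Real.exp_log hx]
    rw [e]
    exact Real.exp_le_exp.2 (mul_le_mul_of_nonneg_right hnP hlx)
  set s1 : ℝ := (48 * Real.exp (2 * a)) ^ n * s with hs1
  have hs10 : 0 ≤ s1 := by positivity
  have hbig : 8 * s1 ≤ Real.exp (-(τ * E)) * v := by
    have hlogx : Real.log (48 * Real.exp (2 * a)) = Real.log 48 + 2 * a := by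
      rw [Real.log_mul (by norm_num) (Real.exp_pos _).ne', Real.log_exp]
    have h0 := hpown (48 * Real.exp (2 * a)) (by positivity) (by rw [hlogx]; positivity)
    rw [hlogx] at h0
    have h1 : 8 * s1 ≤ Real.exp (Real.log 8 + (P * (Real.log 48 + 2 * a) + (M * a - c2' * E))) := by
      rw [Real.exp_add, Real.exp_add, Real.exp_log (show (0 : ℝ) < 8 by norm_num)]
      refine mul_le_mul_of_nonneg_left ?_ (by norm_num)
      exact mul_le_mul_of_nonneg_right h0 hs0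
    have h5 : Real.exp (-(τ * E)) * Real.exp (-((u + τ) * E + C4 * a ^ 3)) ≤ Real.exp (-(τ * E)) * v :=
      mul_le_mul_of_nonneg_left hG1 (Real.exp_pos _).le
    refine h1.trans (le_trans ?_ h5)
    rw [← Real.exp_add]
    apply Real.exp_le_exp.2
    have h2 := hd1 a haA3
    have e1 : T1 * a ^ 3 = Real.log 8 * a ^ 3 + K * M1 * Real.log 48 * a ^ 3 + 2 * (K * M1 * a ^ 3) + M * a ^ 3 + C4 * a ^ 3 := by
      rw [hT1]; ring
    rw [e1] at h2
    have e2 : Real.log 8 ≤ Real.log 8 * a ^ 3 := le_mul_of_one_le_right hlog8.le ha3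
    have e3 : P * (Real.log 48 + 2 * a) ≤ K * M1 * Real.log 48 * a ^ 3 + 2 * (K * M1 * a ^ 3) := by
      calc P * (Real.log 48 + 2 * a) = K * M1 * Real.log 48 * a + 2 * (K * M1 * a ^ 2) := by rw [hP]; ring
        _ ≤ _ := add_le_add (mul_le_mul_of_nonneg_left ha31 (by positivity))
            (mul_le_mul_of_nonneg_left (mul_le_mul_of_nonneg_left ha23 hKM.le) (by norm_num))
    have e4 : M * a ≤ M * a ^ 3 := mul_le_mul_of_nonneg_left ha31 hM
    have e5 : 4 * τ * E ≤ (c2' - u) * E := mul_le_mul_of_nonneg_right hτb hE0.le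
    have e6 : (u + τ) * E = u * E + τ * E := by ring
    have e7 : (c2' - u) * E = c2' * E - u * E := by ring
    have e8 : 4 * τ * E = 4 * (τ * E) := by ring
    have e9 : 2 * τ * E = 2 * (τ * E) := by ring
    rw [e6]
    rw [e7, e8] at e5
    rw [← hE, e9] at h2
    linarith
  have hs1v : s1 ≤ v / 8 := by
    have h1 : Real.exp (-(τ * E)) ≤ 1 := Real.exp_le_one_iff.2 (by have := mul_pos hτp hE0; linarith)
    have h2 : Real.exp (-(τ * E)) * v ≤ 1 * v := mul_le_mul_of_nonneg_right h1 hv0.le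
    linarith
  -- near constancy
  have hq1 : 16 * (q * Real.exp (K * Λ) + 1) ≤ Real.exp B := by
    rw [hB, Real.exp_add, hb0, Real.exp_log (by positivity)]
    exact num6 (Real.one_le_exp (by positivity))
  have hballre : ∀ w, ‖w - w0‖ ≤ Real.exp B * δ' / 2 → |w.re| ≤ 2 ∧ |w.im - γ| ≤ 1 := by
    intro w hw
    have h1 := (Complex.abs_re_le_norm (w - w0)).trans hw
    have h2 := (Complex.abs_im_le_norm (w - w0)).trans hw
    rw [Complex.sub_re] at h1
    rw [Complex.sub_im, ← hγdef] at h2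
    have h3 := hBδ'.trans hδ8
    exact ⟨num11 h1 h3 hre1, h2.trans (by linarith)⟩
  have hcA : ∀ z ∈ l, ‖Q z * G z - Q w0 * G w0‖ ≤ S1 / 8 := by
    intro z hz
    refine near_const (Ψ := fun w => Q w * G w) (M := q * Real.exp (K * Λ)) (b := B) (δ := δ') (hQ.mul hGd) hδ'0
      (by positivity) hq1 (fun w hw => ?_) (hlmem z hz).2
    rw [norm_mul, ← hS1]
    calc ‖Q w‖ * ‖G w‖ ≤ (q * q0) * (Real.exp (K * Λ) * ‖G w0‖) :=
          mul_le_mul (hQup w (hballre w hw).1 (hballre w hw).2) (hGball w hw) (norm_nonneg _) (by positivity)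
      _ = q * Real.exp (K * Λ) * v := by rw [hv]; ring
      _ ≤ _ := mul_le_mul_of_nonneg_left hS1g (by positivity)
  have hcB : ∀ z ∈ l, ‖Q (-conj z) * conj (G z) - Q (-conj w0) * conj (G w0)‖ ≤ S2 / 8 := by
    intro z hz
    have h1 := near_const (Ψ := fun w => conj (Q (-conj w)) * G w) (M := q * Real.exp (K * Λ)) (b := B) (δ := δ')
      ((refl_diff hQ).mul hGd) hδ'0 (by positivity) hq1 (fun w hw => by
        rw [norm_mul, norm_mul, RCLike.norm_conj, RCLike.norm_conj, ← norm_mul (Q (-conj w0)), ← hS2]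
        calc ‖Q (-conj w)‖ * ‖G w‖ ≤ (q * q0) * (Real.exp (K * Λ) * ‖G w0‖) :=
              mul_le_mul (hQup (-conj w) (by
                have := (hballre w hw).1
                rwa [Complex.neg_re, Complex.conj_re, abs_neg]) (by
                have := (hballre w hw).2
                rwa [Complex.neg_im, Complex.conj_im, neg_neg])) (hGball w hw) (norm_nonneg _) (by positivity)
          _ = q * Real.exp (K * Λ) * v := by rw [hv]; ring
          _ ≤ _ := mul_le_mul_of_nonneg_left hS2g (by positivity)) (hlmem z hz).2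
    have e1 : Q (-conj z) * conj (G z) - Q (-conj w0) * conj (G w0) =
        conj (conj (Q (-conj z)) * G z - conj (Q (-conj w0)) * G w0) := by
      rw [map_sub, map_mul, map_mul, Complex.conj_conj, Complex.conj_conj]
    rw [e1, RCLike.norm_conj]
    have e2 : ‖conj (Q (-conj w0)) * G w0‖ = S2 := by rw [hS2, norm_mul, norm_mul, RCLike.norm_conj]
    rwa [e2] at h1
  have hzn : ∀ z ∈ l, nr a ν z := by
    intro z hz
    refine nr_of_big ha1 (hgap5 a haA5) hν ?_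
    have h1 := (Complex.abs_im_le_norm (z - w0)).trans (hlmem z hz).2.le
    rw [Complex.sub_im] at h1
    have h2 : |z.im| ≤ |z.im - w0.im| + |w0.im| := by
      have := abs_add_le (z.im - w0.im) w0.im
      rwa [sub_add_cancel] at this
    linarith
  have hzre : ∀ z ∈ l, |z.re| ≤ 2 - 1 / 2 := by
    intro z hz
    have := X_strip (hlmem z hz).1
    have e : (1 / 2 + z : ℂ).re - 1 / 2 = z.re := by simp
    rw [e] at this
    linarith
  -- the two functions
  set G' : ℂ → ℂ := fun w => ε * (-1) ^ n * conj (G (-conj w)) with hG'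
  have hG'd : Differentiable ℂ G' := (refl_diff hGd).const_mul _
  have hY' : ∀ w, L.X (1 / 2 + w) = PL (l.map fun z => -conj z) w * G' w := by
    intro w
    have e0 : L.X (1 / 2 + w) = ε * conj (L.X (1 / 2 + -conj w)) := by
      rw [hε2 (1 / 2 + w)]
      congr 3
      rw [map_add, map_div₀, map_one, map_ofNat]
      ring
    rw [e0, hXG, map_mul, PL_refl]
    simp only [hG']
    have h1 : ((-1 : ℂ) ^ n) * ((-1) ^ n) = 1 := by rw [← mul_pow]; norm_num
    calc ε * (conj (PL l (-conj w)) * conj (G (-conj w))) =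
        (((-1 : ℂ) ^ n) * ((-1) ^ n)) * (ε * (conj (PL l (-conj w)) * conj (G (-conj w)))) := by rw [h1, one_mul]
      _ = _ := by ring
  have hl1 : ∀ z ∈ l, |z.re| ≤ 2 - 1 / 2 ∧ nr a ν z := fun z hz => ⟨hzre z hz, hzn z hz⟩
  have hl2 : ∀ z ∈ l.map (fun z => -conj z), |z.re| ≤ 2 - 1 / 2 ∧ nr a ν z := by
    intro z hz
    rw [List.mem_map] at hz
    obtain ⟨y, hy, rfl⟩ := hz
    have h1 : (-conj y).im = y.im := by simp
    have h2 : |(-conj y).re| = |y.re| := by rw [Complex.neg_re, Complex.conj_re, abs_neg]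
    have h3 := hl1 y hy
    unfold nr at h3 ⊢
    rw [h1, h2]
    exact h3
  obtain ⟨W1, R1, hW1, hR1, hT1, hb1, hN1⟩ := iterN ha1 l hl1 s Y g (fun w => Q w * G w) R hs0 hsY hg (hQ.mul hGd) hR
    (fun w => by rw [hT, hXG]; ring) hRb hgY
  obtain ⟨W2, R2, hW2, hR2, hT2, hb2, hN2'⟩ := iterN ha1 (l.map fun z => -conj z) hl2 s Y g (fun w => Q w * G' w) R hs0 hsY hg
    (hQ.mul hG'd) hR (fun w => by rw [hT, hY']; ring) hRb hgY
  rw [List.length_map] at hb2 hN2'
  rw [← hn] at hb1 hb2 hN1 hN2'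
  set NB : ℝ := (2304 * (a * Real.exp (2 * a)) ^ 2) ^ n * Y with hNB
  have hNB0 : 0 ≤ NB := by positivity
  have hNBv : NB ≤ Real.exp (2 * ((u + τ0) * E)) * v ^ 2 := by
    have hlogx : Real.log (2304 * (a * Real.exp (2 * a)) ^ 2) = Real.log 2304 + (2 * Real.log a + 4 * a) := by
      rw [Real.log_mul (by norm_num) (by positivity), Real.log_pow, Real.log_mul ha0.ne' (Real.exp_pos _).ne', Real.log_exp]
      push_cast; ring
    have hla : Real.log a ≤ a := by linarith [Real.log_le_sub_one_of_pos ha0]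
    have hla0 : 0 ≤ Real.log a := Real.log_nonneg ha1
    have h0 := hpown (2304 * (a * Real.exp (2 * a)) ^ 2) (by positivity) (by rw [hlogx]; positivity)
    rw [hlogx] at h0
    have h1 : NB ≤ Real.exp (P * (Real.log 2304 + (2 * Real.log a + 4 * a)) + 2 * M * a) := by
      rw [Real.exp_add]
      exact mul_le_mul_of_nonneg_right h0 (by positivity)
    have h2 : Real.exp (-((u + τ) * E + C4 * a ^ 3)) ^ 2 ≤ v ^ 2 := pow_le_pow_left₀ (Real.exp_pos _).le hG1 2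
    have h5 : Real.exp (2 * ((u + τ0) * E)) * Real.exp (-((u + τ) * E + C4 * a ^ 3)) ^ 2 ≤ Real.exp (2 * ((u + τ0) * E)) * v ^ 2 :=
      mul_le_mul_of_nonneg_left h2 (Real.exp_pos _).le
    refine h1.trans (le_trans ?_ h5)
    rw [← Real.exp_nat_mul, ← Real.exp_add]
    apply Real.exp_le_exp.2
    push_cast
    have h3 := hd2 a haA4
    have e1 : T3 * a ^ 3 = K * M1 * Real.log 2304 * a ^ 3 + 6 * (K * M1 * a ^ 3) + 2 * (M * a ^ 3) + 2 * (C4 * a ^ 3) := by
      rw [hT3]; ring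
    rw [e1, ← hE] at h3
    have e3 : P * (Real.log 2304 + (2 * Real.log a + 4 * a)) ≤ K * M1 * Real.log 2304 * a ^ 3 + 6 * (K * M1 * a ^ 3) := by
      calc P * (Real.log 2304 + (2 * Real.log a + 4 * a)) ≤ P * (Real.log 2304 + (2 * a + 4 * a)) :=
            mul_le_mul_of_nonneg_left (by linarith) hP0.le
        _ = K * M1 * Real.log 2304 * a + 6 * (K * M1 * a ^ 2) := by rw [hP]; ring
        _ ≤ _ := add_le_add (mul_le_mul_of_nonneg_left ha31 (by positivity))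
            (mul_le_mul_of_nonneg_left (mul_le_mul_of_nonneg_left ha23 hKM.le) (by norm_num))
    have e4 : M * a ≤ M * a ^ 3 := mul_le_mul_of_nonneg_left ha31 hM
    have e5 : 4 * τ * E ≤ τ0 * E := mul_le_mul_of_nonneg_right hτa hE0.le
    have e6 : (u + τ) * E = u * E + τ * E := by ring
    have e7 : (u + τ0) * E = u * E + τ0 * E := by ring
    have e8 : 4 * τ * E = 4 * (τ * E) := by ring
    rw [e6, e7]
    rw [e8] at e5
    have e9 : 0 < τ * E := mul_pos hτp hE0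
    linarith
  set S := Q w0 * G w0 with hS
  set T := Q (-conj w0) * (ε * (-1) ^ n * conj (G w0)) with hT'
  have hSn : ‖S‖ = S1 := rfl
  have hTn : ‖T‖ = S2 := by
    rw [hT', hS2, norm_mul, norm_mul, norm_mul, norm_mul, hε1, norm_pow, norm_neg, norm_one, one_pow, RCLike.norm_conj]
    ring
  have hS0 : 0 < ‖S‖ := by rw [hSn]; linarith
  have hT0 : 0 < ‖T‖ := by rw [hTn]; linarith
  have hSne : S ≠ 0 := norm_pos_iff.1 hS0
  have hTne : T ≠ 0 := norm_pos_iff.1 hT0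
  -- vanishing of G at the other zeros
  have hG0 : ∀ ρ : Zt, (ρ : ℂ) - 1 / 2 ∉ l → G ((ρ : ℂ) - 1 / 2) = 0 := by
    intro ρ hwl
    have h1 : L.X (ρ : ℂ) = 0 := ρ.2
    have h2 : (1 / 2 : ℂ) + ((ρ : ℂ) - 1 / 2) = ρ := by ring
    rw [← h2, hXG] at h1
    exact (mul_eq_zero.1 h1).resolve_left (PL_ne hwl)
  have hcc : ∀ w : ℂ, -conj (-conj w) = w := fun w => by simp
  have hstrip : ∀ ρ : Zt, |((ρ : ℂ) - 1 / 2).re| ≤ 2 := fun ρ => (half_re ρ).trans (by norm_num)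
  have hstrip' : ∀ ρ : Zt, |(-conj ((ρ : ℂ) - 1 / 2)).re| ≤ 2 := fun ρ => by
    rw [Complex.neg_re, Complex.conj_re, abs_neg]; exact hstrip ρ
  have him1 : ∀ ρ : Zt, ((ρ : ℂ) - 1 / 2).im = (ρ : ℂ).im := fun ρ => by simp
  have him2 : ∀ ρ : Zt, (-conj ((ρ : ℂ) - 1 / 2)).im = (ρ : ℂ).im := fun ρ => by simp
  have hquot : ∀ (x y c : ℝ), 0 < c → v ≤ c → 0 ≤ y → x ≤ s1 / (1 + y) → c⁻¹ * x ≤ Real.exp (-(τ * E)) / (1 + y) := by
    intro x y c hc hvc hy hx
    have h1 : s1 ≤ Real.exp (-(τ * E)) * c := by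
      have h2 : Real.exp (-(τ * E)) * v ≤ Real.exp (-(τ * E)) * c := mul_le_mul_of_nonneg_left hvc (Real.exp_pos _).le
      linarith
    calc c⁻¹ * x ≤ c⁻¹ * (s1 / (1 + y)) := mul_le_mul_of_nonneg_left hx (by positivity)
      _ ≤ c⁻¹ * ((Real.exp (-(τ * E)) * c) / (1 + y)) := by gcongr
      _ = _ := by field_simp
  have hnorm : ∀ c N : ℝ, 0 < c → v ≤ c → N ≤ NB → (c⁻¹) ^ 2 * N ≤ Real.exp (2 * ((u + τ0) * E)) := by
    intro c N hc hvc hN
    have h1 : v ^ 2 ≤ c ^ 2 := pow_le_pow_left₀ hv0.le hvc 2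
    rw [inv_pow, inv_mul_le_iff₀ (by positivity)]
    calc N ≤ NB := hN
      _ ≤ _ := hNBv
      _ ≤ Real.exp (2 * ((u + τ0) * E)) * c ^ 2 := mul_le_mul_of_nonneg_left h1 (Real.exp_pos _).le
      _ = _ := by ring
  refine ⟨l, fun x => S⁻¹ * W1 x, fun x => (-T⁻¹) * W2 x, hw0l, fun z hz => ((hlmem z hz).2.le.trans hδ'δ), ?_⟩
  refine ⟨hW1.smul _, hW2.smul _, fun ρ hρ => ?_, fun ρ hρ => ?_, fun ρ hρ => ?_, fun ρ hρ => ?_, ?_, ?_⟩
  · -- off the cluster
    rw [TT_smul, norm_mul, norm_inv]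
    refine hquot _ _ _ hS0 (by rw [hSn]; exact hS1g) (abs_nonneg _) ?_
    rw [hT1, hG0 ρ hρ, mul_zero, zero_sub, norm_neg]
    have := hb1 _ (hstrip ρ)
    rwa [him1] at this
  · rw [TT_smul, norm_mul, norm_neg, norm_inv]
    refine hquot _ _ _ hT0 (by rw [hTn]; exact hS2g) (abs_nonneg _) ?_
    have h1 : G' (-conj ((ρ : ℂ) - 1 / 2)) = 0 := by
      simp only [hG', hcc, hG0 ρ hρ, map_zero, mul_zero]
    rw [hT2, h1, mul_zero, zero_sub, norm_neg]
    have := hb2 _ (hstrip' ρ)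
    rwa [him2] at this
  · -- on the cluster
    rw [TT_smul]
    have e1 : S⁻¹ * TT W1 ((ρ : ℂ) - 1 / 2) - 1 = S⁻¹ * (TT W1 ((ρ : ℂ) - 1 / 2) - S) := by
      rw [mul_sub, inv_mul_cancel₀ hSne]
    rw [e1, norm_mul, norm_inv, inv_mul_le_iff₀ hS0, hT1]
    have h1 := hcA _ hρ
    have h2 := (hb1 _ (hstrip ρ)).trans (div_le_self hs10 (by linarith [abs_nonneg ((ρ : ℂ) - 1 / 2).im]))
    calc ‖Q ((ρ : ℂ) - 1 / 2) * G ((ρ : ℂ) - 1 / 2) - R1 ((ρ : ℂ) - 1 / 2) - S‖ =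
        ‖(Q ((ρ : ℂ) - 1 / 2) * G ((ρ : ℂ) - 1 / 2) - S) - R1 ((ρ : ℂ) - 1 / 2)‖ := by congr 1; ring
      _ ≤ ‖Q ((ρ : ℂ) - 1 / 2) * G ((ρ : ℂ) - 1 / 2) - S‖ + ‖R1 ((ρ : ℂ) - 1 / 2)‖ := norm_sub_le _ _
      _ ≤ _ := by rw [hSn]; linarith
  · rw [TT_smul]
    have e1 : -T⁻¹ * TT W2 (-conj ((ρ : ℂ) - 1 / 2)) + 1 = -(T⁻¹ * (TT W2 (-conj ((ρ : ℂ) - 1 / 2)) - T)) := by
      rw [mul_sub, inv_mul_cancel₀ hTne]; ring
    rw [e1, norm_neg, norm_mul, norm_inv, inv_mul_le_iff₀ hT0, hT2]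
    have h1 := hcB _ hρ
    have h2 := (hb2 _ (hstrip' ρ)).trans (div_le_self hs10 (by linarith [abs_nonneg (-conj ((ρ : ℂ) - 1 / 2)).im]))
    have e2 : Q (-conj ((ρ : ℂ) - 1 / 2)) * G' (-conj ((ρ : ℂ) - 1 / 2)) - T =
        ε * (-1) ^ n * (Q (-conj ((ρ : ℂ) - 1 / 2)) * conj (G ((ρ : ℂ) - 1 / 2)) - Q (-conj w0) * conj (G w0)) := by
      simp only [hG', hcc, hT']; ring
    have e3 : ‖Q (-conj ((ρ : ℂ) - 1 / 2)) * G' (-conj ((ρ : ℂ) - 1 / 2)) - T‖ ≤ ‖T‖ / 8 := by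
      rw [e2, norm_mul, norm_mul, hε1, norm_pow, norm_neg, norm_one, one_pow, one_mul, one_mul, hTn]
      exact h1
    calc ‖Q (-conj ((ρ : ℂ) - 1 / 2)) * G' (-conj ((ρ : ℂ) - 1 / 2)) - R2 (-conj ((ρ : ℂ) - 1 / 2)) - T‖ =
        ‖(Q (-conj ((ρ : ℂ) - 1 / 2)) * G' (-conj ((ρ : ℂ) - 1 / 2)) - T) - R2 (-conj ((ρ : ℂ) - 1 / 2))‖ := by congr 1; ring
      _ ≤ ‖Q (-conj ((ρ : ℂ) - 1 / 2)) * G' (-conj ((ρ : ℂ) - 1 / 2)) - T‖ + ‖R2 (-conj ((ρ : ℂ) - 1 / 2))‖ := norm_sub_le _ _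
      _ ≤ _ := by
        have h9 : v ≤ ‖T‖ := by rw [hTn]; exact hS2g
        linarith
  · rw [N2_smul, norm_inv]
    exact hnorm _ _ hS0 (by rw [hSn]; exact hS1g) hN1
  · rw [N2_smul, norm_neg, norm_inv]
    exact hnorm _ _ hT0 (by rw [hTn]; exact hS2g) hN2'

/-- a bound for the number of points -/
lemma card_le {k : ℕ} (w : Fin k → ℂ) (hw : ∀ i, L.X (1 / 2 + w i) = 0) (hinj : Function.Injective w) {H : ℝ} (hH : 0 ≤ H)
    (him : ∀ i, |(w i).im| ≤ H) : (k : ℝ) ≤ (1 + H ^ 2) * ∑' ρ : Zt, (mu ρ : ℝ) * (1 / (1 + ((ρ : ℂ).im - 0) ^ 2)) := by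
  classical
  set r : Fin k → Zt := fun i => ⟨1 / 2 + w i, hw i⟩ with hr
  have hrinj : Function.Injective r := by
    intro i j h
    have h1 := congrArg (fun ρ : Zt => (ρ : ℂ)) h
    simp only [hr, add_right_inj] at h1
    exact hinj h1
  have h1 : ∀ i, 1 / (1 + H ^ 2) ≤ (mu (r i) : ℝ) * (1 / (1 + ((r i : ℂ).im - 0) ^ 2)) := by
    intro i
    have hm1 : (1 : ℝ) ≤ mu (r i) := by
      have : 1 ≤ mu (r i : ℂ) := (zd (L := L)).mpos _ (r i).2
      exact_mod_cast this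
    have e : (r i : ℂ).im = (w i).im := by simp [hr]
    rw [e, sub_zero]
    have h2 : (w i).im ^ 2 ≤ H ^ 2 := by
      rw [← sq_abs]
      exact pow_le_pow_left₀ (abs_nonneg _) (him i) 2
    have h3 : 1 / (1 + H ^ 2) ≤ 1 / (1 + (w i).im ^ 2) := one_div_le_one_div_of_le (by positivity) (by linarith)
    have h4 : 0 ≤ 1 / (1 + (w i).im ^ 2) := by positivity
    nlinarith
  have h2 : (k : ℝ) * (1 / (1 + H ^ 2)) ≤ ∑' ρ : Zt, (mu ρ : ℝ) * (1 / (1 + ((ρ : ℂ).im - 0) ^ 2)) := by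
    calc (k : ℝ) * (1 / (1 + H ^ 2)) = ∑ _i : Fin k, 1 / (1 + H ^ 2) := by simp
      _ ≤ ∑ i : Fin k, (mu (r i) : ℝ) * (1 / (1 + ((r i : ℂ).im - 0) ^ 2)) := Finset.sum_le_sum fun i _ => h1 i
      _ = ∑ ρ ∈ Finset.univ.image r, (mu ρ : ℝ) * (1 / (1 + ((ρ : ℂ).im - 0) ^ 2)) := by
          rw [Finset.sum_image fun i _ j _ h => hrinj h]
      _ ≤ _ := (zsummable 0).sum_le_tsum _ fun ρ _ => by positivity
  rw [mul_one_div, div_le_iff₀ (by positivity)] at h2
  linarith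

/-- **the number of separated zeros off the line is at most the number of negative eigenvalues** -/
theorem idx_core {ω c0 θ u : ℝ} (hθ : 0 ≤ θ) (hω : θ < Real.pi * ω) (hu0 : 0 ≤ u) (hc0 : u < c0) (H : TDn ω θ u) :
    ∃ κ A : ℝ, 0 < κ ∧ 1 ≤ A ∧ ∀ a : ℝ, A ≤ a → ∀ ν : ℕ∞, big ω a ν → ∀ (k : ℕ) (w : Fin k → ℂ),
      (∀ i, L.X (1 / 2 + w i) = 0 ∧ |(w i).im| ≤ θ * Real.exp (2 * a / L.m) ∧ Real.exp (-(κ * Real.exp (2 * a / L.m) / a)) ≤ (w i).re) →
      (∀ i j, i ≠ j → Real.exp (-(κ * Real.exp (2 * a / L.m) / a)) ≤ ‖w i - w j‖) →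
      ∃ f : Fin k → ℝ → ℂ, (∀ i, Hn a ν (f i)) ∧ ∀ c : Fin k → ℂ, c ≠ 0 →
        QQ (fun x => ∑ i, c i * f i x) < -Real.exp (-(2 * c0 * Real.exp (2 * a / L.m))) * N2 (fun x => ∑ i, c i * f i x) := by
  have hm := m_one (L := L)
  have hm0 : (0 : ℝ) < L.m := by linarith
  set τ0 : ℝ := (c0 - u) / 2 with hτ0
  have hτ00 : 0 < τ0 := by rw [hτ0]; linarith
  obtain ⟨τ, κ, A1, hτ, hκ, hA1, hloc⟩ := loc_exists hθ hω hu0 hτ00 H
  set Z : ℝ := ∑' ρ : Zt, (mu ρ : ℝ) * (1 / (1 + ((ρ : ℂ).im - 0) ^ 2)) with hZ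
  have hZ0 : 0 ≤ Z := tsum_nonneg fun ρ => by positivity
  set D1 : ℝ := 48 * (2 + θ) * (1 + θ ^ 2) * (Z ^ 2 + 1) with hD1
  have hD11 : 1 ≤ D1 := by
    have h1 : (1 : ℝ) ≤ (2 + θ) := by linarith
    have h2 : (1 : ℝ) ≤ (1 + θ ^ 2) := by have := sq_nonneg θ; linarith
    have h3 : (1 : ℝ) ≤ (Z ^ 2 + 1) := by have := sq_nonneg Z; linarith
    rw [hD1]
    have h4 : (1 : ℝ) ≤ 48 * (2 + θ) := by linarith
    have h5 : (1 : ℝ) ≤ 48 * (2 + θ) * (1 + θ ^ 2) := one_le_mul_of_one_le_of_one_le h4 h2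
    exact one_le_mul_of_one_le_of_one_le h5 h3
  set D2 : ℝ := 32 * (1 + θ ^ 2) * (Z + 1) with hD2
  have hD21 : 1 ≤ D2 := by
    have h2 : (1 : ℝ) ≤ 32 * (1 + θ ^ 2) := by have := sq_nonneg θ; linarith
    rw [hD2]
    exact one_le_mul_of_one_le_of_one_le h2 (by linarith)
  obtain ⟨A2, hA2, hd1⟩ := exp_dom (L := L) τ (Real.log D1 + 6) hτ
  obtain ⟨A3, hA3, hd2⟩ := exp_dom (L := L) (c0 - u) (Real.log D2 + 4) (by linarith)
  refine ⟨κ, max A1 (max A2 A3), hκ, hA1.trans (le_max_left _ _), fun a ha ν hν k w hw hsep => ?_⟩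
  have haA1 : A1 ≤ a := (le_max_left _ _).trans ha
  have haA2 : A2 ≤ a := (le_max_left A2 A3).trans ((le_max_right _ _).trans ha)
  have haA3 : A3 ≤ a := (le_max_right A2 A3).trans ((le_max_right _ _).trans ha)
  have ha1 : 1 ≤ a := hA1.trans haA1
  have ha0 : 0 < a := by linarith
  have hd1a := hd1 a haA2
  have hd2a := hd2 a haA3
  set E : ℝ := Real.exp (2 * a / L.m) with hE
  have hE1 : 1 ≤ E := Real.one_le_exp (by positivity)
  have hE0 : 0 < E := by linarith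
  have hEa : E ≤ Real.exp (2 * a) := Real.exp_le_exp.2 (div_le_self (by positivity) hm)
  set d0 : ℝ := Real.exp (-(κ * E / a)) with hd0
  have hd00 : 0 < d0 := Real.exp_pos _
  have hd01 : d0 ≤ 1 := Real.exp_le_one_iff.2 (by have : 0 ≤ κ * E / a := by positivity
                                                  linarith)
  choose l F H hwl hl hLoc using fun i => hloc a haA1 ν hν (w i) (hw i).1 (hw i).2.1
  obtain ⟨ha31, ha3⟩ := cube_ge ha1
  have hθE : 0 ≤ θ * E := by positivity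
  -- the number of points
  have hinj : Function.Injective w := by
    intro i j h
    by_contra hne
    have h1 := hsep i j hne
    rw [h, sub_self, norm_zero] at h1
    linarith
  have hk : (k : ℝ) ≤ (1 + (θ * E) ^ 2) * Z := card_le w (fun i => (hw i).1) hinj hθE fun i => (hw i).2.1
  have hE2 : 1 ≤ E ^ 2 := one_le_pow₀ hE1
  have hk2 : (k : ℝ) ≤ (1 + θ ^ 2) * E ^ 2 * Z := by
    refine hk.trans (mul_le_mul_of_nonneg_right ?_ hZ0)
    rw [mul_pow]
    have := sq_nonneg θ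
    nlinarith
  refine ⟨fun i x => F i x + H i x, fun i => (hLoc i).memF.add (hLoc i).memH, fun c hc => ?_⟩
  refine index_of_loc (EC := zc (L := L)) ha0 (s := Real.exp (-(τ * E))) (B := Real.exp (2 * ((u + τ0) * E))) (Hh := θ * E + 1) (l := l)
    (Real.exp_pos _).le (Real.exp_le_one_iff.2 (by have := mul_pos hτ hE0; linarith)) hLoc ?_ ?_ ?_ (by linarith) ?_ ?_
    (Real.exp_pos _).le ?_ c hc
  · -- disjointness
    intro i j hij z hz1 hz2
    have h1 := hl i z hz1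
    have h2 := hl j z hz2
    have h3 := hsep i j hij
    have h4 : ‖w i - w j‖ ≤ ‖z - w j‖ + ‖z - w i‖ := by
      have e : w i - w j = (z - w j) - (z - w i) := by ring
      rw [e]
      exact norm_sub_le _ _
    linarith
  · intro i z hz
    have h1 := (Complex.abs_re_le_norm (z - w i)).trans (hl i z hz)
    rw [Complex.sub_re] at h1
    have h2 := (abs_le.1 h1).1
    have h3 := (hw i).2.2
    linarith
  · intro i z hz
    have h1 := (Complex.abs_im_le_norm (z - w i)).trans (hl i z hz)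
    rw [Complex.sub_im] at h1
    have h2 : |z.im| ≤ |z.im - (w i).im| + |(w i).im| := by
      have := abs_add_le (z.im - (w i).im) (w i).im
      rwa [sub_add_cancel] at this
    have h3 := (hw i).2.1
    linarith
  · intro i
    refine ⟨⟨1 / 2 + w i, (hw i).1⟩, ?_⟩
    have e : ((⟨1 / 2 + w i, (hw i).1⟩ : Zt) : ℂ) - 1 / 2 = w i := by simp
    rw [e]
    exact hwl i
  · -- smallness of the remainders
    rw [← hZ]
    have h1 : 1 + (θ * E + 1) ≤ (2 + θ) * E := by nlinarith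
    have h2 : 9 * Real.exp (-(τ * E)) * (1 + (θ * E + 1)) * k * Z ≤
        9 * Real.exp (-(τ * E)) * ((2 + θ) * E) * ((1 + θ ^ 2) * E ^ 2 * Z) * Z := by gcongr
    have h3 : 9 * Real.exp (-(τ * E)) * ((2 + θ) * E) * ((1 + θ ^ 2) * E ^ 2 * Z) * Z =
        3 / 16 * (Real.exp (-(τ * E)) * E ^ 3 * (48 * (2 + θ) * (1 + θ ^ 2) * Z ^ 2)) := by ring
    have h4 : 48 * (2 + θ) * (1 + θ ^ 2) * Z ^ 2 ≤ D1 := by
      rw [hD1]
      have h5 : 0 ≤ 48 * (2 + θ) * (1 + θ ^ 2) := by positivity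
      nlinarith
    have h5 : E ^ 3 ≤ Real.exp (6 * a) := by
      calc E ^ 3 ≤ Real.exp (2 * a) ^ 3 := pow_le_pow_left₀ hE0.le hEa 3
        _ = Real.exp (6 * a) := by rw [← Real.exp_nat_mul]; congr 1; push_cast; ring
    have h6 : Real.exp (-(τ * E)) * E ^ 3 * (48 * (2 + θ) * (1 + θ ^ 2) * Z ^ 2) ≤ 1 := by
      calc Real.exp (-(τ * E)) * E ^ 3 * (48 * (2 + θ) * (1 + θ ^ 2) * Z ^ 2) ≤
          Real.exp (-(τ * E)) * Real.exp (6 * a) * D1 := by gcongr
        _ = Real.exp (-(τ * E) + 6 * a + Real.log D1) := by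
            rw [Real.exp_add, Real.exp_add, Real.exp_log (by linarith)]
        _ ≤ 1 := by
            apply Real.exp_le_one_iff.2
            have h7 : 0 ≤ Real.log D1 := Real.log_nonneg hD11
            have h8 : Real.log D1 ≤ Real.log D1 * a ^ 3 := le_mul_of_one_le_right h7 ha3
            have h9 : (Real.log D1 + 6) * a ^ 3 = Real.log D1 * a ^ 3 + 6 * a ^ 3 := by ring
            rw [h9] at hd1a
            linarith
    rw [h3] at h2
    linarith
  · -- the threshold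
    have h1 : 16 * (k : ℝ) * Real.exp (2 * ((u + τ0) * E)) * Real.exp (-(2 * c0 * E)) ≤
        16 * ((1 + θ ^ 2) * E ^ 2 * Z) * (Real.exp (2 * ((u + τ0) * E)) * Real.exp (-(2 * c0 * E))) := by
      rw [mul_assoc (16 * (k : ℝ))]
      gcongr
    have h2 : Real.exp (2 * ((u + τ0) * E)) * Real.exp (-(2 * c0 * E)) = Real.exp (-((c0 - u) * E)) := by
      rw [← Real.exp_add, hτ0]; congr 1; ring
    have h4 : 16 * (1 + θ ^ 2) * Z ≤ D2 / 2 := by
      rw [hD2]
      have h5 : 0 ≤ 16 * (1 + θ ^ 2) := by positivity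
      nlinarith
    have h5 : E ^ 2 ≤ Real.exp (4 * a) := by
      calc E ^ 2 ≤ Real.exp (2 * a) ^ 2 := pow_le_pow_left₀ hE0.le hEa 2
        _ = Real.exp (4 * a) := by rw [← Real.exp_nat_mul]; congr 1; push_cast; ring
    rw [h2] at h1
    have h6 : 16 * ((1 + θ ^ 2) * E ^ 2 * Z) * Real.exp (-((c0 - u) * E)) ≤ 1 / 2 := by
      calc 16 * ((1 + θ ^ 2) * E ^ 2 * Z) * Real.exp (-((c0 - u) * E)) =
          (16 * (1 + θ ^ 2) * Z) * E ^ 2 * Real.exp (-((c0 - u) * E)) := by ring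
        _ ≤ (D2 / 2) * Real.exp (4 * a) * Real.exp (-((c0 - u) * E)) := by gcongr
        _ = 1 / 2 * Real.exp (Real.log D2 + 4 * a + -((c0 - u) * E)) := by
            rw [Real.exp_add, Real.exp_add, Real.exp_log (by linarith)]; ring
        _ ≤ 1 / 2 * 1 := by
            refine mul_le_mul_of_nonneg_left ?_ (by norm_num)
            apply Real.exp_le_one_iff.2
            have h7 : 0 ≤ Real.log D2 := Real.log_nonneg hD21
            have h8 : Real.log D2 ≤ Real.log D2 * a ^ 3 := le_mul_of_one_le_right h7 ha3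
            have h9 : (Real.log D2 + 4) * a ^ 3 = Real.log D2 * a ^ 3 + 4 * a ^ 3 := by ring
            rw [h9] at hd2a
            linarith
        _ = 1 / 2 := by ring
    linarith

end Pool.Agent.Y23.G.F.K36
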