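import Pool.Agent.K3h36.RH.Idx1

/-! # Stationary functions of the Weil form with zeros off the line -/

set_option autoImplicit false
set_option linter.unusedSectionVars false
set_option maxHeartbeats 2000000

open Complex Filter Topology Set MeasureTheory Metric
open scoped ComplexConjugate

namespace Pool.Agent.Y23.G.F.K36

variable [DZ : ZD] [EC : ZC]

lemma BB_sum_left {a : ℝ} {ν : ℕ∞} (ha : 0 < a) (μ : ℝ) {ι : Type} (S : Finset ι) {f : ι → ℝ → ℂ} (hf : ∀ i, Hn a ν (f i)) (c : ι → ℂ)
    {h : ℝ → ℂ} (hh : Hn a ν h) : BB μ (fun x => ∑ i ∈ S, c i * f i x) h = ∑ i ∈ S, c i * BB μ (f i) h := by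
  classical
  induction S using Finset.induction_on with
  | empty =>
    have e : (fun x => ∑ i ∈ (∅ : Finset ι), c i * f i x) = fun x => (0 : ℂ) * h x := by funext x; simp
    rw [e, BB_smul_left]; simp
  | insert i S hi ih =>
    have e : (fun x => ∑ j ∈ insert i S, c j * f j x) = (fun x => c i * f i x + ∑ i ∈ S, c i * f i x) := by
      funext x; rw [Finset.sum_insert hi]
    rw [e, BB_add_left ha μ ((hf i).smul (c i)) (Hn.sum S hf c) hh, BB_smul_left, ih, Finset.sum_insert hi]

/-- stationary functions are orthogonal to the form domain -/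
lemma stat {a : ℝ} {ν : ℕ∞} (ha : 0 < a) {μ : ℝ} {f : ℝ → ℂ} (hf : Hn a ν f)
    (h : ∀ g, Hn a ν g → bq μ (fun x => f x + g x) = bq μ f + bq μ g) {g : ℝ → ℂ} (hg : Hn a ν g) : BB μ f g = 0 := by
  set t : ℂ := BB μ f g with ht
  have h1 := bq_line ha μ hf hg t
  rw [h _ (hg.smul t), bq_smul] at h1
  have h2 : (conj t * BB μ f g).re = ‖t‖ ^ 2 := by
    rw [← ht, mul_comm, Complex.mul_conj, Complex.ofReal_re, Complex.normSq_eq_norm_sq]
  rw [h2] at h1
  have h3 : ‖t‖ ^ 2 = 0 := by linarith
  exact norm_eq_zero.1 (pow_eq_zero_iff two_ne_zero |>.1 h3)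

/-- the chain of divided functions -/
lemma chain_div {a : ℝ} {ν : ℕ∞} (ha : 0 < a) (z : ℕ → ℂ) (hz : ∀ i, (z i).re ≠ 0) {G : ℂ → ℂ} (hG : Continuous G) (k : ℕ) {f : ℝ → ℂ}
    (hf : Hn a ν f) (hfac : ∀ w, TT f w = (∏ j ∈ Finset.range k, (w - z j)) * G w) :
    ∃ g : ℕ → ℝ → ℂ, g 0 = f ∧ (∀ i, Hn a ν (g i)) ∧
      ∀ i, i ≤ k → ∀ w, TT (g i) w = (∏ j ∈ Finset.Ico i k, (w - z j)) * G w := by
  classical
  have hstep : ∀ (i : ℕ) (h : ℝ → ℂ), ∃ h' : ℝ → ℂ, Hn a ν h → Hn a ν h' ∧
      (i < k → (∀ w, TT h w = (∏ j ∈ Finset.Ico i k, (w - z j)) * G w) → ∀ w, TT h' w = (∏ j ∈ Finset.Ico (i + 1) k, (w - z j)) * G w) := by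
    intro i h
    by_cases hi : Hn a ν h ∧ i < k ∧ ∀ w, TT h w = (∏ j ∈ Finset.Ico i k, (w - z j)) * G w
    · obtain ⟨hh, hik, hT⟩ := hi
      have h0 : TT h (z i) = 0 := by
        rw [hT, Finset.prod_eq_prod_Ico_succ_bot hik, sub_self, zero_mul, zero_mul]
      obtain ⟨h', hh', hT', -⟩ := hh.div ha (z i) (ad_off (hz i)) h0
      refine ⟨h', fun _ => ⟨hh', fun _ _ => ?_⟩⟩
      have key : ∀ w, w ≠ z i → TT h' w = (∏ j ∈ Finset.Ico (i + 1) k, (w - z j)) * G w := by
        intro w hw
        have h1 := hT' w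
        rw [hT, Finset.prod_eq_prod_Ico_succ_bot hik, mul_assoc] at h1
        exact mul_left_cancel₀ (sub_ne_zero.2 hw) h1
      have hc1 : Continuous (TT h') := (differentiable_TT hh'.1).continuous
      have hc2 : Continuous (fun w => (∏ j ∈ Finset.Ico (i + 1) k, (w - z j)) * G w) :=
        (continuous_finsetProd _ fun j _ => by fun_prop).mul hG
      exact fun w => congrFun (Continuous.ext_on (s := {z i}ᶜ) (dense_compl_singleton _) hc1 hc2 fun w hw => key w hw) w
    · refine ⟨h, fun hh => ⟨hh, fun h1 h2 => absurd ⟨hh, h1, h2⟩ hi⟩⟩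
  choose S hS using hstep
  set g : ℕ → ℝ → ℂ := fun n => Nat.rec f (fun i h => S i h) n with hg
  have hg0 : g 0 = f := rfl
  have hgs : ∀ n, g (n + 1) = S n (g n) := fun n => rfl
  have hmem : ∀ n, Hn a ν (g n) := by
    intro n
    induction n with
    | zero => exact hf
    | succ n ih => rw [hgs]; exact (hS n (g n) ih).1
  refine ⟨g, hg0, hmem, fun i => ?_⟩
  induction i with
  | zero =>
    intro _ w
    rw [hg0, hfac, ← Finset.range_eq_Ico]
  | succ i ih =>
    intro hi w
    rw [hgs]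
    exact (hS i (g i) (hmem i)).2 (by omega) (ih (by omega)) w

/-- the form vanishes on the divided functions -/
lemma chain_null {a : ℝ} {ν : ℕ∞} {μ : ℝ} (ha : 0 < a) {z : ℕ → ℂ} {k : ℕ} {g : ℕ → ℝ → ℂ} (hmem : ∀ i, Hn a ν (g i))
    (hz : ∀ i j, i < k → j < k → z i + conj (z j) ≠ 0)
    (hstep : ∀ i, i < k → ∀ w, TT (g i) w = (w - z i) * TT (g (i + 1)) w) (h0 : ∀ h, Hn a ν h → BB μ (g 0) h = 0) :
    ∀ n i j, i + j = n → i ≤ k → j ≤ k → BB μ (g i) (g j) = 0 := by
  intro n
  induction n with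
  | zero =>
    intro i j hij _ _
    have : i = 0 := by omega
    rw [this]
    exact h0 _ (hmem j)
  | succ n ih =>
    intro i j hij hi hj
    rcases i with _ | i
    · exact h0 _ (hmem j)
    rcases j with _ | j
    · rw [BB_conj, h0 _ (hmem (i + 1)), map_zero]
    have e1 := ih i (j + 1) (by omega) (by omega) hj
    have e2 := ih (i + 1) j (by omega) hi (by omega)
    set b : ℂ := z j + conj (z i) with hb
    have hG' : Hn a ν (fun x => (-1) * g j x + (-b) * g (j + 1) x) := ((hmem j).smul (-1)).add ((hmem (j + 1)).smul (-b))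
    have hT' : ∀ w, TT (fun x => (-1) * g j x + (-b) * g (j + 1) x) w = -(w + conj (z i)) * TT (g (j + 1)) w := by
      intro w
      rw [TT_add ((hmem j).smul (-1)).1 ((hmem (j + 1)).smul (-b)).1, TT_smul, TT_smul, hstep j (by omega), hb]
      ring
    have e3 : BB μ (g i) (g (j + 1)) = BB μ (g (i + 1)) (fun x => (-1) * g j x + (-b) * g (j + 1) x) := by
      refine BB_congr μ (hmem i).1 (hmem (j + 1)).1 (hmem (i + 1)).1 hG'.1 fun w => ?_
      unfold GG
      rw [hT', hstep i (by omega), map_mul, map_neg, map_add, map_neg, Complex.conj_conj, Complex.conj_conj]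
      ring
    rw [e1, BB_add_right ha μ ((hmem j).smul (-1)) ((hmem (j + 1)).smul (-b)) (hmem (i + 1)), BB_smul_right, BB_smul_right, e2,
      mul_zero, zero_add, map_neg] at e3
    have hb0 : conj b ≠ 0 := by
      rw [hb, map_add, Complex.conj_conj, add_comm]
      exact hz i j (by omega) (by omega)
    have e4 : conj b * BB μ (g (i + 1)) (g (j + 1)) = 0 := by
      have := e3
      rw [neg_mul, eq_comm, neg_eq_zero] at this
      exact this
    exact (mul_eq_zero.1 e4).resolve_left hb0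

/-- products of linear factors of different degrees are independent -/
lemma poly_indep (z : ℕ → ℂ) (k : ℕ) {c : ℕ → ℂ}
    (h : ∑ i ∈ Finset.range (k + 1), Polynomial.C (c i) * ∏ j ∈ Finset.Ico i k, (Polynomial.X - Polynomial.C (z j)) = 0) :
    ∀ i, i ≤ k → c i = 0 := by
  intro i
  induction i using Nat.strong_induction_on with
  | _ i ih =>
    intro hi
    have h1 := congrArg (fun p => Polynomial.coeff p (k - i)) h
    simp only [Polynomial.finsetSum_coeff, Polynomial.coeff_C_mul, Polynomial.coeff_zero] at h1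
    rw [Finset.sum_eq_single i] at h1
    · have hmon : (∏ j ∈ Finset.Ico i k, (Polynomial.X - Polynomial.C (z j))).Monic :=
        Polynomial.monic_prod_of_monic _ _ fun j _ => Polynomial.monic_X_sub_C _
      have hdeg : (∏ j ∈ Finset.Ico i k, (Polynomial.X - Polynomial.C (z j))).natDegree = k - i := by
        rw [Polynomial.natDegree_prod_of_monic _ _ fun j _ => Polynomial.monic_X_sub_C _]
        simp
      have h2 := hmon.coeff_natDegree
      rw [hdeg] at h2
      rw [h2, mul_one] at h1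
      exact h1
    · intro j hj hji
      rw [Finset.mem_range] at hj
      rcases Nat.lt_or_ge j i with h2 | h2
      · rw [ih j h2 (by omega), zero_mul]
      · have hlt : i < j := by omega
        rw [Polynomial.coeff_eq_zero_of_natDegree_lt, mul_zero]
        rw [Polynomial.natDegree_prod_of_monic _ _ fun j _ => Polynomial.monic_X_sub_C _]
        simp only [Polynomial.natDegree_X_sub_C, Finset.sum_const, Nat.card_Ico, smul_eq_mul, mul_one]
        omega
    · intro hi2
      exact absurd (Finset.mem_range.2 (by omega)) hi2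

/-- **the nodal theorem**: a stationary function with `k` zeros on one side of the line gives a space of dimension `k + 1` on which
the form vanishes -/
theorem nodal {a : ℝ} {ν : ℕ∞} (ha : 0 < a) {μ : ℝ} {f : ℝ → ℂ} (hf : Hn a ν f) (hN : N2 f ≠ 0)
    (hst : ∀ g, Hn a ν g → bq μ (fun x => f x + g x) = bq μ f + bq μ g) (k : ℕ) (z : Fin k → ℂ)
    (hz : ∀ i j, z i + conj (z j) ≠ 0) {G : ℂ → ℂ} (hG : Continuous G) (hfac : ∀ w, TT f w = (∏ i, (w - z i)) * G w) :
    ∃ g : Fin (k + 1) → ℝ → ℂ, (∀ i, Hn a ν (g i)) ∧ ∀ c : Fin (k + 1) → ℂ, c ≠ 0 →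
      0 < N2 (fun x => ∑ i, c i * g i x) ∧ bq μ (fun x => ∑ i, c i * g i x) = 0 := by
  classical
  set z' : ℕ → ℂ := fun i => if h : i < k then z ⟨i, h⟩ else 1 with hz'
  have hz'v : ∀ i (h : i < k), z' i = z ⟨i, h⟩ := fun i h => by simp only [hz']; rw [dif_pos h]
  have hre : ∀ i, (z' i).re ≠ 0 := by
    intro i
    by_cases h : i < k
    · rw [hz'v i h]
      intro h0
      have h1 := hz ⟨i, h⟩ ⟨i, h⟩
      rw [Complex.add_conj, h0] at h1
      simp at h1
    · simp only [hz']; rw [dif_neg h]; simp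
  have hprod : ∀ w, (∏ i, (w - z i)) = ∏ j ∈ Finset.range k, (w - z' j) := by
    intro w
    rw [Finset.prod_range]
    refine Finset.prod_congr rfl fun i _ => ?_
    rw [hz'v i i.2]
  obtain ⟨g, hg0, hmem, hT⟩ := chain_div ha z' hre hG k hf (fun w => by rw [hfac, hprod])
  have hstep : ∀ i, i < k → ∀ w, TT (g i) w = (w - z' i) * TT (g (i + 1)) w := by
    intro i hi w
    rw [hT i hi.le, hT (i + 1) (by omega), Finset.prod_eq_prod_Ico_succ_bot hi]; ring
  have h0 : ∀ h, Hn a ν h → BB μ (g 0) h = 0 := fun h hh => by rw [hg0]; exact stat ha hf hst hh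
  have hnull := chain_null ha (k := k) hmem (fun i j hi hj => by rw [hz'v i hi, hz'v j hj]; exact hz _ _) hstep h0
  refine ⟨fun i => g i, fun i => hmem i, fun c hc => ⟨?_, ?_⟩⟩
  · refine lt_of_le_of_ne (N2_nonneg _) fun h => ?_
    have hmemS : Hn a ν (fun x => ∑ i : Fin (k + 1), c i * g i x) := Hn.sum (f := fun i : Fin (k + 1) => g i) Finset.univ (fun i => hmem i) c
    have h1 : ∀ w, ∑ i : Fin (k + 1), c i * TT (g i) w = 0 := by
      intro w
      rw [← TT_sum (f := fun i : Fin (k + 1) => g i) Finset.univ (fun i => hmem i) c w]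
      exact TT_zero_of_N2 ha hmemS.1 h.symm w
    -- a point where `G` does not vanish
    set c' : ℕ → ℂ := fun i => if h : i < k + 1 then c ⟨i, h⟩ else 0 with hc'
    set p : Polynomial ℂ := ∑ i ∈ Finset.range (k + 1), Polynomial.C (c' i) * ∏ j ∈ Finset.Ico i k, (Polynomial.X - Polynomial.C (z' j)) with hp
    have h2 : ∀ w, p.eval w * G w = 0 := by
      intro w
      rw [← h1 w, hp, Polynomial.eval_finsetSum, Finset.sum_range, Finset.sum_mul]
      refine Finset.sum_congr rfl fun i _ => ?_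
      rw [hT i (by omega), Polynomial.eval_mul, Polynomial.eval_C, Polynomial.eval_prod]
      simp only [Polynomial.eval_sub, Polynomial.eval_X, Polynomial.eval_C]
      have : c' i = c i := by simp only [hc']; rw [dif_pos i.2]
      rw [this]; ring
    have h3 : p = 0 := by
      by_contra hne
      have hfin : {w | p.eval w = 0}.Finite := by
        have := p.roots.toFinset.finite_toSet
        refine this.subset fun w hw => ?_
        rw [Finset.mem_coe, Multiset.mem_toFinset, Polynomial.mem_roots hne]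
        exact hw
      have hd : Dense ({w | p.eval w = 0}ᶜ) := hfin.countable.dense_compl ℂ
      have hG0 : ∀ w, G w = 0 := by
        intro w
        have hc1 : Continuous (fun _ : ℂ => (0 : ℂ)) := continuous_const
        exact congrFun (Continuous.ext_on hd hG hc1 fun w hw => (mul_eq_zero.1 (h2 w)).resolve_left hw) w
      apply hN
      exact N2_zero_of_TT hf.1 fun w => by rw [hfac, hG0, mul_zero]
    apply hc
    funext i
    have h4 := poly_indep z' k (c := c') (by rw [← hp]; exact h3) i (by omega)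
    simp only [hc'] at h4
    rw [dif_pos i.2] at h4
    exact h4
  · have hmemS : Hn a ν (fun x => ∑ i : Fin (k + 1), c i * g i x) := Hn.sum (f := fun i : Fin (k + 1) => g i) Finset.univ (fun i => hmem i) c
    have h1 : BB μ (fun x => ∑ i : Fin (k + 1), c i * g i x) (fun x => ∑ i : Fin (k + 1), c i * g i x) = 0 := by
      rw [BB_sum_left (f := fun i : Fin (k + 1) => g i) ha μ Finset.univ (fun i => hmem i) c hmemS]
      refine Finset.sum_eq_zero fun i _ => ?_
      rw [BB_conj, BB_sum_left (f := fun i : Fin (k + 1) => g i) ha μ Finset.univ (fun i => hmem i) c (hmem i)]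
      rw [Finset.sum_eq_zero fun j _ => ?_, map_zero, mul_zero]
      rw [hnull _ j i rfl (by omega) (by omega), mul_zero]
    rw [BB_self ha μ hmemS] at h1
    exact_mod_cast h1

/-- the form is nonnegative on the functions which vanish at all zeros to the right of the line -/
lemma QQ_nonneg_of_vanish {f : ℝ → ℂ} (h : ∀ ρ : Zt, 1 / 2 < (ρ : ℂ).re → TT f ((ρ : ℂ) - 1 / 2) = 0) : 0 ≤ QQ f := by
  unfold QQ
  refine tsum_nonneg fun ρ => mul_nonneg (Nat.cast_nonneg _) ?_
  rcases lt_trichotomy (ρ : ℂ).re (1 / 2) with h1 | h1 | h1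
  · have h2 : TT f (-conj ((ρ : ℂ) - 1 / 2)) = 0 := by
      rw [← rfZ_sub]
      apply h
      rw [rfZ_val]
      simp only [Complex.sub_re, Complex.one_re, Complex.conj_re]
      linarith
    unfold GG
    rw [h2, map_zero, mul_zero, Complex.zero_re]
  · have h2 : -conj ((ρ : ℂ) - 1 / 2) = (ρ : ℂ) - 1 / 2 := by
      apply Complex.ext
      · simp [h1]
      · simp
    unfold GG
    rw [h2, Complex.mul_conj, Complex.ofReal_re]
    exact Complex.normSq_nonneg _
  · unfold GG
    rw [h ρ h1, zero_mul, Complex.zero_re]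

/-- few zeros to the right of the line give few negative eigenvalues -/
theorem few {a : ℝ} {ν : ℕ∞} {m : ℕ} (s : Fin m → ℂ) (hs : ∀ ρ : Zt, 1 / 2 < (ρ : ℂ).re → ∃ i, (ρ : ℂ) = s i)
    (f : Fin (m + 1) → ℝ → ℂ) (hf : ∀ i, Hn a ν (f i)) :
    ∃ c : Fin (m + 1) → ℂ, c ≠ 0 ∧ 0 ≤ QQ (fun x => ∑ i, c i * f i x) := by
  classical
  set A : (Fin (m + 1) → ℂ) →ₗ[ℂ] (Fin m → ℂ) :=
    { toFun := fun c j => ∑ i, c i * TT (f i) (s j - 1 / 2)
      map_add' := fun c d => by
        funext j
        simp only [Pi.add_apply, add_mul, Finset.sum_add_distrib]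
      map_smul' := fun r c => by
        funext j
        simp only [Pi.smul_apply, smul_eq_mul, RingHom.id_apply, Finset.mul_sum, mul_assoc] } with hA
  have hker : LinearMap.ker A ≠ ⊥ := LinearMap.ker_ne_bot_of_finrank_lt (by simp)
  obtain ⟨c, hc, hc0⟩ := Submodule.exists_mem_ne_zero_of_ne_bot hker
  refine ⟨c, hc0, QQ_nonneg_of_vanish fun ρ hρ => ?_⟩
  obtain ⟨j, hj⟩ := hs ρ hρ
  rw [TT_sum Finset.univ hf c, hj]
  exact congrFun (LinearMap.mem_ker.1 hc) j

end Pool.Agent.Y23.G.F.K36
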