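import Pool.Agent.Y23.F.St

/-! # Functions concentrated on clusters of zeros: the index of the Weil form -/

set_option autoImplicit false
set_option linter.unusedSectionVars false
set_option maxHeartbeats 2000000

open Complex Filter Topology Set MeasureTheory Metric
open scoped ComplexConjugate

namespace Pool.Agent.Y23.G.F.K36

variable [DZ : ZD]

/-- division by several linear factors, with the norm -/
lemma iterN [EC : ZC] {a : ℝ} {ν : ℕ∞} (ha : 1 ≤ a) : ∀ (l : List ℂ), (∀ z ∈ l, |z.re| ≤ 2 - 1 / 2 ∧ nr a ν z) →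
    ∀ (s Y : ℝ) (X : ℝ → ℂ) (Ψ R : ℂ → ℂ), 0 ≤ s → s ^ 2 ≤ Y → Hn a ν X → Differentiable ℂ Ψ → Differentiable ℂ R →
    (∀ w, TT X w = PL l w * Ψ w - R w) → (∀ w : ℂ, |w.re| ≤ 2 → ‖R w‖ ≤ s / (1 + |w.im|)) → N2 X ≤ Y →
    ∃ (W : ℝ → ℂ) (R' : ℂ → ℂ), Hn a ν W ∧ Differentiable ℂ R' ∧ (∀ w, TT W w = Ψ w - R' w) ∧
      (∀ w : ℂ, |w.re| ≤ 2 → ‖R' w‖ ≤ ((48 * Real.exp (2 * a)) ^ l.length * s) / (1 + |w.im|)) ∧
      N2 W ≤ (2304 * (a * Real.exp (2 * a)) ^ 2) ^ l.length * Y := by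
  have ha0 : 0 < a := by linarith
  have hE1 : 1 ≤ Real.exp (2 * a) := Real.one_le_exp (by linarith)
  intro l
  induction l with
  | nil =>
    intro _ s Y X Ψ R hs hsY hX hΨ hR hXT hRb hN
    refine ⟨X, R, hX, hR, fun w => ?_, fun w hw => ?_, ?_⟩
    · rw [hXT, PL_nil, one_mul]
    · simpa using hRb w hw
    · simpa using hN
  | cons z l ih =>
    intro hl s Y X Ψ R hs hsY hX hΨ hR hXT hRb hN
    obtain ⟨hz1, hz2⟩ := hl z (by simp)
    have hPΨ : Differentiable ℂ (fun w => PL l w * Ψ w) := (PL_diff l).mul hΨ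
    obtain ⟨W1, R1, T, hW1, hR1, hT1, hb1, hT, hUT, hNT, -⟩ := single4 (Ψ := fun w => PL l w * Ψ w) ha hs le_rfl hX
      hPΨ hR (fun w => by rw [hXT, PL_cons, mul_assoc]) hRb hz1 hz2
    have hY0 : 0 ≤ Y := (sq_nonneg s).trans hsY
    have hUH : Hn a ν (fun x => X x - T x) := hX.sub hT
    have hN1 : N2 W1 ≤ 4 * a ^ 2 * N2 (fun x => X x - T x) := N2_div_le ha0 hW1.hd hUH.hd fun w => (hUT w).symm
    have hN2 : N2 (fun x => X x - T x) ≤ 6 * Y := by
      have h3 := N2_add_le hX.1 (hT.smul (-1)).1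
      have e : (fun x => X x + -1 * T x) = (fun x => X x - T x) := by funext x; ring
      rw [e, N2_smul] at h3
      have h4 : ‖(-1 : ℂ)‖ ^ 2 = 1 := by simp
      rw [h4, one_mul] at h3
      linarith
    have ha2 : 1 ≤ a ^ 2 := one_le_pow₀ ha
    have hEE : 1 ≤ Real.exp (2 * a) ^ 2 := one_le_pow₀ hE1
    set K : ℝ := 2304 * (a * Real.exp (2 * a)) ^ 2 with hK
    have hK0 : 0 ≤ K := by positivity
    have hW1N : N2 W1 ≤ K * Y := by
      calc N2 W1 ≤ 4 * a ^ 2 * (6 * Y) := hN1.trans (mul_le_mul_of_nonneg_left hN2 (by positivity))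
        _ = 24 * (a ^ 2 * 1) * Y := by ring
        _ ≤ 2304 * (a ^ 2 * Real.exp (2 * a) ^ 2) * Y := by
            refine mul_le_mul_of_nonneg_right ?_ hY0
            have := mul_le_mul_of_nonneg_left hEE (sq_nonneg a)
            nlinarith
        _ = K * Y := by rw [hK, mul_pow]
    have hs1 : (48 * Real.exp (2 * a) * s) ^ 2 ≤ K * Y := by
      calc (48 * Real.exp (2 * a) * s) ^ 2 = 2304 * (1 * Real.exp (2 * a) ^ 2) * s ^ 2 := by ring
        _ ≤ 2304 * (a ^ 2 * Real.exp (2 * a) ^ 2) * Y := by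
            refine mul_le_mul ?_ hsY (sq_nonneg s) (by positivity)
            refine mul_le_mul_of_nonneg_left ?_ (by norm_num)
            exact mul_le_mul_of_nonneg_right ha2 (by positivity)
        _ = K * Y := by rw [hK, mul_pow]
    obtain ⟨W, R', hW, hR', hTW, hb', hNW⟩ := ih (fun y hy => hl y (by simp [hy])) (48 * Real.exp (2 * a) * s) (K * Y) W1 Ψ R1
      (by positivity) hs1 hW1 hΨ hR1 hT1 hb1 hW1N
    refine ⟨W, R', hW, hR', hTW, fun w hw => ?_, hNW.trans (le_of_eq ?_)⟩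
    · have := hb' w hw
      rw [List.length_cons, pow_succ]
      rwa [mul_assoc]
    · rw [List.length_cons, pow_succ]; ring

/-- two functions concentrated on a cluster of zeros and on its reflection -/
structure Loc (a : ℝ) (ν : ℕ∞) (s B : ℝ) (l : List ℂ) (F H : ℝ → ℂ) : Prop where
  memF : Hn a ν F
  memH : Hn a ν H
  offF : ∀ ρ : Zt, (ρ : ℂ) - 1 / 2 ∉ l → ‖TT F ((ρ : ℂ) - 1 / 2)‖ ≤ s / (1 + |(ρ : ℂ).im|)
  offH : ∀ ρ : Zt, (ρ : ℂ) - 1 / 2 ∉ l → ‖TT H (-conj ((ρ : ℂ) - 1 / 2))‖ ≤ s / (1 + |(ρ : ℂ).im|)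
  onF : ∀ ρ : Zt, (ρ : ℂ) - 1 / 2 ∈ l → ‖TT F ((ρ : ℂ) - 1 / 2) - 1‖ ≤ 1 / 4
  onH : ∀ ρ : Zt, (ρ : ℂ) - 1 / 2 ∈ l → ‖TT H (-conj ((ρ : ℂ) - 1 / 2)) + 1‖ ≤ 1 / 4
  nF : N2 F ≤ B
  nH : N2 H ≤ B

lemma Hn.sum {a : ℝ} {ν : ℕ∞} {ι : Type} (S : Finset ι) {f : ι → ℝ → ℂ} (hf : ∀ i, Hn a ν (f i)) (c : ι → ℂ) :
    Hn a ν (fun x => ∑ i ∈ S, c i * f i x) := by
  classical
  induction S using Finset.induction_on with
  | empty => simpa using Hn.zero
  | insert i S hi ih =>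
    have h := ((hf i).smul (c i)).add ih
    have e : (fun x => c i * f i x + ∑ i ∈ S, c i * f i x) = fun x => ∑ j ∈ insert i S, c j * f j x := by
      funext x; rw [Finset.sum_insert hi]
    rwa [e] at h

lemma TT_sum {a : ℝ} {ν : ℕ∞} {ι : Type} (S : Finset ι) {f : ι → ℝ → ℂ} (hf : ∀ i, Hn a ν (f i)) (c : ι → ℂ) (w : ℂ) :
    TT (fun x => ∑ i ∈ S, c i * f i x) w = ∑ i ∈ S, c i * TT (f i) w := by
  classical
  induction S using Finset.induction_on with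
  | empty => simp [TT]
  | insert i S hi ih =>
    have e : (fun x => ∑ j ∈ insert i S, c j * f j x) = (fun x => c i * f i x + ∑ i ∈ S, c i * f i x) := by
      funext x; rw [Finset.sum_insert hi]
    rw [e, TT_add ((hf i).smul (c i)).1 (Hn.sum S hf c).1, TT_smul, ih, Finset.sum_insert hi]

lemma N2_sum_le {a : ℝ} {ν : ℕ∞} {k : ℕ} {f : Fin k → ℝ → ℂ} (hf : ∀ i, Hn a ν (f i)) (c : Fin k → ℂ) {B : ℝ}
    (hB : ∀ i, N2 (f i) ≤ B) : N2 (fun x => ∑ i, c i * f i x) ≤ (∑ i, ‖c i‖ ^ 2) * (k * B) := by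
  have h1 : ∀ x, ‖∑ i, c i * f i x‖ ^ 2 ≤ (∑ i, ‖c i‖ ^ 2) * ∑ i, ‖f i x‖ ^ 2 := by
    intro x
    calc ‖∑ i, c i * f i x‖ ^ 2 ≤ (∑ i, ‖c i‖ * ‖f i x‖) ^ 2 := by
          refine pow_le_pow_left₀ (norm_nonneg _) ((norm_sum_le _ _).trans (le_of_eq ?_)) 2
          exact Finset.sum_congr rfl fun i _ => norm_mul _ _
      _ ≤ _ := Finset.sum_mul_sq_le_sq_mul_sq _ _ _
  have hint : Integrable (fun x : ℝ => (∑ i, ‖c i‖ ^ 2) * ∑ i, ‖f i x‖ ^ 2) :=
    (integrable_finsetSum _ fun i _ => (hf i).1.sq_int).const_mul _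
  calc N2 (fun x => ∑ i, c i * f i x) ≤ ∫ x : ℝ, (∑ i, ‖c i‖ ^ 2) * ∑ i, ‖f i x‖ ^ 2 :=
        integral_mono (Hn.sum Finset.univ hf c).1.sq_int hint h1
    _ = (∑ i, ‖c i‖ ^ 2) * ∑ i, N2 (f i) := by
        rw [integral_const_mul, integral_finsetSum _ fun i _ => (hf i).1.sq_int]
        rfl
    _ ≤ (∑ i, ‖c i‖ ^ 2) * (k * B) := by
        refine mul_le_mul_of_nonneg_left ?_ (Finset.sum_nonneg fun i _ => sq_nonneg _)
        refine (Finset.sum_le_sum fun i _ => hB i).trans (le_of_eq ?_)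
        simp

lemma sum_sq_le (k : ℕ) (c : Fin k → ℂ) : (∑ i, ‖c i‖) ^ 2 ≤ k * ∑ i, ‖c i‖ ^ 2 := by
  have h := Finset.sum_mul_sq_le_sq_mul_sq Finset.univ (fun _ : Fin k => (1 : ℝ)) (fun i => ‖c i‖)
  simp only [one_mul, one_pow, Finset.sum_const, Finset.card_univ, Fintype.card_fin, nsmul_eq_mul, mul_one] at h
  exact h

/-- the local computation on a cluster -/
lemma local_re {c A B : ℂ} {t : ℝ} (ht : 0 ≤ t) (hA : ‖A - c‖ ≤ ‖c‖ / 4 + t) (hB : ‖B + c‖ ≤ ‖c‖ / 4 + t) :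
    (A * conj B).re ≤ -(7 / 16) * ‖c‖ ^ 2 + (5 / 2 * ‖c‖ * t + t ^ 2) := by
  have e : A * conj B = -(c * conj c) + (c * conj (B + c) - (A - c) * conj c + (A - c) * conj (B + c)) := by
    rw [map_add]; ring
  have h1 : (-(c * conj c)).re = -‖c‖ ^ 2 := by
    rw [Complex.mul_conj, Complex.normSq_eq_norm_sq, Complex.neg_re, Complex.ofReal_re]
  have hc := norm_nonneg c
  have h2 : (c * conj (B + c) - (A - c) * conj c + (A - c) * conj (B + c)).re ≤
      ‖c‖ * (‖c‖ / 4 + t) + (‖c‖ / 4 + t) * ‖c‖ + (‖c‖ / 4 + t) * (‖c‖ / 4 + t) := by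
    refine (Complex.re_le_norm _).trans ((norm_add_le _ _).trans (add_le_add ((norm_sub_le _ _).trans (add_le_add ?_ ?_)) ?_))
    · rw [norm_mul, RCLike.norm_conj]
      exact mul_le_mul_of_nonneg_left hB hc
    · rw [norm_mul, RCLike.norm_conj]
      exact mul_le_mul_of_nonneg_right hA hc
    · rw [norm_mul, RCLike.norm_conj]
      exact mul_le_mul hA hB (norm_nonneg _) (by positivity)
  rw [e, Complex.add_re, h1]
  nlinarith


/-- the sum over the functions concentrated on the clusters -/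
lemma sumF {a : ℝ} {ν : ℕ∞} {k : ℕ} {s B : ℝ} {l : Fin k → List ℂ} {F H : Fin k → ℝ → ℂ} (hs0 : 0 ≤ s)
    (hloc : ∀ i, Loc a ν s B (l i) (F i) (H i)) (hdisj : ∀ i j, i ≠ j → ∀ z ∈ l i, z ∉ l j) (c : Fin k → ℂ) (ρ : Zt) :
    (∀ i, (ρ : ℂ) - 1 / 2 ∈ l i → ‖(∑ j, c j * TT (F j) ((ρ : ℂ) - 1 / 2)) - c i‖ ≤ ‖c i‖ / 4 + (∑ j, ‖c j‖) * s / (1 + |(ρ : ℂ).im|)) ∧
    ((∀ i, (ρ : ℂ) - 1 / 2 ∉ l i) → ‖∑ j, c j * TT (F j) ((ρ : ℂ) - 1 / 2)‖ ≤ (∑ j, ‖c j‖) * s / (1 + |(ρ : ℂ).im|)) := by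
  classical
  set w := (ρ : ℂ) - 1 / 2 with hw
  set y := |(ρ : ℂ).im| with hy
  have hy0 : 0 ≤ y := abs_nonneg _
  constructor
  · intro i hi
    have h1 : (∑ j, c j * TT (F j) w) - c i = c i * (TT (F i) w - 1) + ∑ j ∈ Finset.univ.erase i, c j * TT (F j) w := by
      rw [← Finset.add_sum_erase _ _ (Finset.mem_univ i)]; ring
    rw [h1]
    refine (norm_add_le _ _).trans (add_le_add ?_ ?_)
    · rw [norm_mul]
      have := mul_le_mul_of_nonneg_left ((hloc i).onF ρ hi) (norm_nonneg (c i))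
      rw [← hw] at this
      linarith
    · refine (norm_sum_le _ _).trans ?_
      rw [mul_div_assoc, Finset.sum_mul]
      refine le_trans (Finset.sum_le_sum fun j hj => ?_) (Finset.sum_le_sum_of_subset_of_nonneg (Finset.erase_subset i _) fun j _ _ => by positivity)
      rw [norm_mul]
      refine mul_le_mul_of_nonneg_left ((hloc j).offF ρ ?_) (norm_nonneg _)
      exact hdisj i j (Finset.ne_of_mem_erase hj).symm _ hi
  · intro hn
    refine (norm_sum_le _ _).trans ?_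
    rw [mul_div_assoc, Finset.sum_mul]
    refine Finset.sum_le_sum fun j _ => ?_
    rw [norm_mul]
    exact mul_le_mul_of_nonneg_left ((hloc j).offF ρ (hn j)) (norm_nonneg _)

/-- the sum over the functions concentrated on the reflected clusters -/
lemma sumH {a : ℝ} {ν : ℕ∞} {k : ℕ} {s B : ℝ} {l : Fin k → List ℂ} {F H : Fin k → ℝ → ℂ} (hs0 : 0 ≤ s)
    (hloc : ∀ i, Loc a ν s B (l i) (F i) (H i)) (hdisj : ∀ i j, i ≠ j → ∀ z ∈ l i, z ∉ l j) (c : Fin k → ℂ) (ρ : Zt) :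
    (∀ i, (ρ : ℂ) - 1 / 2 ∈ l i → ‖(∑ j, c j * TT (H j) (-conj ((ρ : ℂ) - 1 / 2))) + c i‖ ≤ ‖c i‖ / 4 + (∑ j, ‖c j‖) * s / (1 + |(ρ : ℂ).im|)) ∧
    ((∀ i, (ρ : ℂ) - 1 / 2 ∉ l i) → ‖∑ j, c j * TT (H j) (-conj ((ρ : ℂ) - 1 / 2))‖ ≤ (∑ j, ‖c j‖) * s / (1 + |(ρ : ℂ).im|)) := by
  classical
  set w := (ρ : ℂ) - 1 / 2 with hw
  set y := |(ρ : ℂ).im| with hy
  have hy0 : 0 ≤ y := abs_nonneg _
  constructor
  · intro i hi
    have h1 : (∑ j, c j * TT (H j) (-conj w)) + c i = c i * (TT (H i) (-conj w) + 1) + ∑ j ∈ Finset.univ.erase i, c j * TT (H j) (-conj w) := by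
      rw [← Finset.add_sum_erase _ _ (Finset.mem_univ i)]; ring
    rw [h1]
    refine (norm_add_le _ _).trans (add_le_add ?_ ?_)
    · rw [norm_mul]
      have := mul_le_mul_of_nonneg_left ((hloc i).onH ρ hi) (norm_nonneg (c i))
      rw [← hw] at this
      linarith
    · refine (norm_sum_le _ _).trans ?_
      rw [mul_div_assoc, Finset.sum_mul]
      refine le_trans (Finset.sum_le_sum fun j hj => ?_) (Finset.sum_le_sum_of_subset_of_nonneg (Finset.erase_subset i _) fun j _ _ => by positivity)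
      rw [norm_mul]
      refine mul_le_mul_of_nonneg_left ((hloc j).offH ρ ?_) (norm_nonneg _)
      exact hdisj i j (Finset.ne_of_mem_erase hj).symm _ hi
  · intro hn
    refine (norm_sum_le _ _).trans ?_
    rw [mul_div_assoc, Finset.sum_mul]
    refine Finset.sum_le_sum fun j _ => ?_
    rw [norm_mul]
    exact mul_le_mul_of_nonneg_left ((hloc j).offH ρ (hn j)) (norm_nonneg _)

/-- **the index from functions concentrated on clusters** -/
theorem index_of_loc [EC : ZC] {a : ℝ} (ha : 0 < a) {ν : ℕ∞} {k : ℕ} {s B Hh η : ℝ} {l : Fin k → List ℂ} {F H : Fin k → ℝ → ℂ}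
    (hs0 : 0 ≤ s) (hs1 : s ≤ 1) (hloc : ∀ i, Loc a ν s B (l i) (F i) (H i)) (hdisj : ∀ i j, i ≠ j → ∀ z ∈ l i, z ∉ l j)
    (hre : ∀ i, ∀ z ∈ l i, 0 < z.re) (him : ∀ i, ∀ z ∈ l i, |z.im| ≤ Hh) (hH0 : 0 ≤ Hh) (hne : ∀ i, ∃ ρ : Zt, (ρ : ℂ) - 1 / 2 ∈ l i)
    (hsm : 9 * s * (1 + Hh) * k * (∑' ρ : Zt, (mu ρ : ℝ) * (1 / (1 + ((ρ : ℂ).im - 0) ^ 2))) ≤ 3 / 16)
    (hη0 : 0 ≤ η) (hη : 16 * k * B * η < 1) (c : Fin k → ℂ) (hc : c ≠ 0) :
    QQ (fun x => ∑ i, c i * (F i x + H i x)) < -η * N2 (fun x => ∑ i, c i * (F i x + H i x)) := by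
  classical
  choose r hr using hne
  set Z : ℝ := ∑' ρ : Zt, (mu ρ : ℝ) * (1 / (1 + ((ρ : ℂ).im - 0) ^ 2)) with hZ
  have hZ0 : 0 ≤ Z := tsum_nonneg fun ρ => by positivity
  have hFH : ∀ i, Hn a ν (fun x => F i x + H i x) := fun i => (hloc i).memF.add (hloc i).memH
  set f : ℝ → ℂ := fun x => ∑ i, c i * (F i x + H i x) with hf
  have hfH : Hn a ν f := Hn.sum Finset.univ hFH c
  set C1 : ℝ := ∑ j, ‖c j‖ with hC1
  have hC10 : 0 ≤ C1 := Finset.sum_nonneg fun i _ => norm_nonneg _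
  set P : ℝ := ∑ i, ‖c i‖ ^ 2 with hP
  have hP0 : 0 < P := by
    obtain ⟨i, hi⟩ := Function.ne_iff.1 hc
    have h1 : 0 < ‖c i‖ ^ 2 := by
      have : 0 < ‖c i‖ := norm_pos_iff.2 hi
      positivity
    exact lt_of_lt_of_le h1 (Finset.single_le_sum (f := fun i => ‖c i‖ ^ 2) (fun j _ => sq_nonneg _) (Finset.mem_univ i))
  have hCP : C1 ^ 2 ≤ k * P := sum_sq_le k c
  have hfT : ∀ w, TT f w = (∑ j, c j * TT (F j) w) + ∑ j, c j * TT (H j) w := by
    intro w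
    rw [hf, TT_sum Finset.univ hFH c w, ← Finset.sum_add_distrib]
    refine Finset.sum_congr rfl fun j _ => ?_
    rw [TT_add (hloc j).memF.1 (hloc j).memH.1]; ring
  have hcc : ∀ w : ℂ, -conj (-conj w) = w := fun w => by simp
  have hci : ∀ i, ‖c i‖ ≤ C1 := fun i => Finset.single_le_sum (f := fun i => ‖c i‖) (fun j _ => norm_nonneg _) (Finset.mem_univ i)
  set D : ℝ := 9 * C1 ^ 2 * s * (1 + Hh) with hD
  have hD0 : 0 ≤ D := by positivity
  -- reflected points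
  have hrf : ∀ ρ : Zt, |((rfZ ρ : Zt) : ℂ).im| = |(ρ : ℂ).im| := by
    intro ρ
    rw [rfZ_val]; simp
  have hopp : ∀ (ρ : Zt) (i j : Fin k), (ρ : ℂ) - 1 / 2 ∈ l i → ((rfZ ρ : Zt) : ℂ) - 1 / 2 ∉ l j := by
    intro ρ i j h1 h2
    have h3 := hre i _ h1
    have h4 := hre j _ h2
    rw [rfZ_sub] at h4
    have : (-conj ((ρ : ℂ) - 1 / 2)).re = -((ρ : ℂ) - 1 / 2).re := by simp
    rw [this] at h4
    linarith
  -- case of a cluster
  have caseA : ∀ (ρ : Zt) (i : Fin k), (ρ : ℂ) - 1 / 2 ∈ l i → (GG f f ((ρ : ℂ) - 1 / 2)).re ≤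
      -(7 / 16) * ‖c i‖ ^ 2 + D * (1 / (1 + ((ρ : ℂ).im - 0) ^ 2)) := by
    intro ρ i hi
    set w := (ρ : ℂ) - 1 / 2 with hw
    set y := |(ρ : ℂ).im| with hy
    have hy0 : 0 ≤ y := abs_nonneg _
    have hyH : y ≤ Hh := by
      have h1 := him i _ hi
      have e1 : w.im = (ρ : ℂ).im := by rw [hw]; simp
      rwa [e1] at h1
    set t := C1 * s / (1 + y) with ht
    have ht0 : 0 ≤ t := by positivity
    have hn1 : ∀ j, ((rfZ ρ : Zt) : ℂ) - 1 / 2 ∉ l j := fun j => hopp ρ i j hi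
    have k1 := (sumF hs0 hloc hdisj c ρ).1 i hi
    have k2 := (sumH hs0 hloc hdisj c (rfZ ρ)).2 hn1
    have k3 := (sumF hs0 hloc hdisj c (rfZ ρ)).2 hn1
    have k4 := (sumH hs0 hloc hdisj c ρ).1 i hi
    rw [rfZ_sub, hcc, hrf] at k2
    rw [rfZ_sub, hrf] at k3
    rw [← hw, ← hy, ← ht] at k1 k2 k3 k4
    have hA : ‖TT f w - c i‖ ≤ ‖c i‖ / 4 + 2 * t := by
      rw [hfT]
      have e1 : (∑ j, c j * TT (F j) w) + ∑ j, c j * TT (H j) w - c i = ((∑ j, c j * TT (F j) w) - c i) + ∑ j, c j * TT (H j) w := by ring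
      rw [e1]
      refine (norm_add_le _ _).trans ?_
      linarith
    have hB : ‖TT f (-conj w) + c i‖ ≤ ‖c i‖ / 4 + 2 * t := by
      rw [hfT]
      have e1 : (∑ j, c j * TT (F j) (-conj w)) + ∑ j, c j * TT (H j) (-conj w) + c i =
        (∑ j, c j * TT (F j) (-conj w)) + ((∑ j, c j * TT (H j) (-conj w)) + c i) := by ring
      rw [e1]
      refine (norm_add_le _ _).trans ?_
      linarith
    have h1 := local_re (by linarith : 0 ≤ 2 * t) hA hB
    have hGG : GG f f w = TT f w * conj (TT f (-conj w)) := rfl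
    rw [hGG]
    refine h1.trans ?_
    have hy1 : 0 < 1 + y := by linarith
    have ht1 : t ≤ C1 * (s / (1 + y)) := le_of_eq (by rw [ht]; ring)
    have hs2 : s / (1 + y) ≤ 1 := by
      rw [div_le_one hy1]; linarith
    have hs3 : 0 ≤ s / (1 + y) := by positivity
    have ht2 : t ≤ C1 := ht1.trans (mul_le_of_le_one_right hC10 hs2)
    have h2 : ‖c i‖ * t ≤ C1 ^ 2 * (s / (1 + y)) := by
      calc ‖c i‖ * t ≤ C1 * (C1 * (s / (1 + y))) := mul_le_mul (hci i) ht1 ht0 hC10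
        _ = _ := by ring
    have h3 : t ^ 2 ≤ C1 ^ 2 * (s / (1 + y)) := by
      calc t ^ 2 = t * t := sq t
        _ ≤ C1 * (C1 * (s / (1 + y))) := mul_le_mul ht2 ht1 ht0 hC10
        _ = _ := by ring
    have h4 : s / (1 + y) ≤ s * (1 + Hh) * (1 / (1 + ((ρ : ℂ).im - 0) ^ 2)) := by
      rw [sub_zero, ← sq_abs (ρ : ℂ).im, ← hy, mul_one_div, div_le_div_iff₀ hy1 (by positivity)]
      have h5 : 1 + y ^ 2 ≤ (1 + Hh) * (1 + y) := by nlinarith
      calc s * (1 + y ^ 2) ≤ s * ((1 + Hh) * (1 + y)) := mul_le_mul_of_nonneg_left h5 hs0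
        _ = _ := by ring
    have h5 : 9 * C1 ^ 2 * (s / (1 + y)) ≤ D * (1 / (1 + ((ρ : ℂ).im - 0) ^ 2)) := by
      calc _ ≤ 9 * C1 ^ 2 * (s * (1 + Hh) * (1 / (1 + ((ρ : ℂ).im - 0) ^ 2))) := mul_le_mul_of_nonneg_left h4 (by positivity)
        _ = _ := by rw [hD]; ring
    have e1 : 5 / 2 * ‖c i‖ * (2 * t) + (2 * t) ^ 2 = 5 * (‖c i‖ * t) + 4 * t ^ 2 := by ring
    rw [e1]
    linarith
  have hpoint : ∀ ρ : Zt, (mu ρ : ℝ) * (GG f f ((ρ : ℂ) - 1 / 2)).re ≤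
      -(7 / 16) * (∑ i, if ρ = r i then ‖c i‖ ^ 2 else 0) + D * ((mu ρ : ℝ) * (1 / (1 + ((ρ : ℂ).im - 0) ^ 2))) := by
    intro ρ
    have hm1 : (1 : ℝ) ≤ mu ρ := by
      have : 1 ≤ mu (ρ : ℂ) := DZ.mpos _ ρ.2
      exact_mod_cast this
    have hU0 : 0 ≤ 1 / (1 + ((ρ : ℂ).im - 0) ^ 2) := by positivity
    by_cases hA : ∃ i, (ρ : ℂ) - 1 / 2 ∈ l i
    · obtain ⟨i, hi⟩ := hA
      have h1 := caseA ρ i hi
      have h2 : (∑ j, if ρ = r j then ‖c j‖ ^ 2 else 0) ≤ ‖c i‖ ^ 2 := by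
        calc (∑ j, if ρ = r j then ‖c j‖ ^ 2 else 0) ≤ ∑ j, if j = i then ‖c j‖ ^ 2 else 0 := by
              refine Finset.sum_le_sum fun j _ => ?_
              by_cases hj : ρ = r j
              · have hji : j = i := by
                  by_contra hne
                  have h3 := hr j
                  rw [← hj] at h3
                  exact hdisj j i hne _ h3 hi
                rw [if_pos hj, if_pos hji]
              · rw [if_neg hj]
                split_ifs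
                · positivity
                · exact le_rfl
          _ = ‖c i‖ ^ 2 := by rw [Finset.sum_ite_eq' Finset.univ i]; simp
      have h3 := mul_le_mul_of_nonneg_left h1 (by linarith : (0 : ℝ) ≤ mu ρ)
      have h4 : ‖c i‖ ^ 2 ≤ (mu ρ : ℝ) * ‖c i‖ ^ 2 := le_mul_of_one_le_left (sq_nonneg _) hm1
      nlinarith
    · push Not at hA
      have hz : (∑ j, if ρ = r j then ‖c j‖ ^ 2 else 0) = 0 := by
        refine Finset.sum_eq_zero fun j _ => ?_
        rw [if_neg]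
        intro h
        have h3 := hr j
        rw [← h] at h3
        exact hA j h3
      rw [hz, mul_zero, zero_add]
      have key : (GG f f ((ρ : ℂ) - 1 / 2)).re ≤ D * (1 / (1 + ((ρ : ℂ).im - 0) ^ 2)) := by
        by_cases hB : ∃ i, ((rfZ ρ : Zt) : ℂ) - 1 / 2 ∈ l i
        · obtain ⟨i, hi⟩ := hB
          have h1 := caseA (rfZ ρ) i hi
          have h2 : (GG f f (((rfZ ρ : Zt) : ℂ) - 1 / 2)).re = (GG f f ((ρ : ℂ) - 1 / 2)).re := by
            rw [rfZ_sub, GG_refl, Complex.conj_re]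
          have h3 : (((rfZ ρ : Zt) : ℂ).im - 0) ^ 2 = ((ρ : ℂ).im - 0) ^ 2 := by
            rw [sub_zero, sub_zero, ← sq_abs, hrf, sq_abs]
          rw [h2, h3] at h1
          have h4 : 0 ≤ ‖c i‖ ^ 2 := sq_nonneg _
          linarith
        · push Not at hB
          set w := (ρ : ℂ) - 1 / 2 with hw
          set y := |(ρ : ℂ).im| with hy
          have hy0 : 0 ≤ y := abs_nonneg _
          set t := C1 * s / (1 + y) with ht
          have ht0 : 0 ≤ t := by positivity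
          have k1 := (sumF hs0 hloc hdisj c ρ).2 hA
          have k2 := (sumH hs0 hloc hdisj c (rfZ ρ)).2 hB
          have k3 := (sumF hs0 hloc hdisj c (rfZ ρ)).2 hB
          have k4 := (sumH hs0 hloc hdisj c ρ).2 hA
          rw [rfZ_sub, hcc, hrf] at k2
          rw [rfZ_sub, hrf] at k3
          rw [← hw, ← hy, ← ht] at k1 k2 k3 k4
          have hA1 : ‖TT f w‖ ≤ 2 * t := by
            rw [hfT]
            refine (norm_add_le _ _).trans ?_
            linarith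
          have hB1 : ‖TT f (-conj w)‖ ≤ 2 * t := by
            rw [hfT]
            refine (norm_add_le _ _).trans ?_
            linarith
          have h1 : (GG f f w).re ≤ (2 * t) * (2 * t) := by
            refine (Complex.re_le_norm _).trans ?_
            unfold GG
            rw [norm_mul, RCLike.norm_conj]
            exact mul_le_mul hA1 hB1 (norm_nonneg _) (by positivity)
          refine h1.trans ?_
          have hy1 : 0 < 1 + y := by linarith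
          have h2 : (2 * t) * (2 * t) = 4 * C1 ^ 2 * (s * s) * (1 / (1 + y) ^ 2) := by rw [ht]; field_simp; ring
          rw [h2, hD, sub_zero, ← sq_abs (ρ : ℂ).im, ← hy]
          have h3 : 1 / (1 + y) ^ 2 ≤ 1 / (1 + y ^ 2) := by
            apply one_div_le_one_div_of_le (by positivity)
            nlinarith
          have h4 : s * s ≤ s * 1 := mul_le_mul_of_nonneg_left hs1 hs0
          have h5 : 0 ≤ C1 ^ 2 := sq_nonneg _
          have h6 : 4 * C1 ^ 2 * (s * s) ≤ 9 * C1 ^ 2 * s * (1 + Hh) := by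
            have h7 : C1 ^ 2 * (s * s) ≤ C1 ^ 2 * (s * 1) := mul_le_mul_of_nonneg_left h4 h5
            have h8 : 0 ≤ C1 ^ 2 * s * Hh := by positivity
            have h9 : 0 ≤ C1 ^ 2 * s := by positivity
            nlinarith
          exact mul_le_mul h6 h3 (by positivity) (by positivity)
      calc (mu ρ : ℝ) * (GG f f ((ρ : ℂ) - 1 / 2)).re ≤ (mu ρ : ℝ) * (D * (1 / (1 + ((ρ : ℂ).im - 0) ^ 2))) :=
            mul_le_mul_of_nonneg_left key (by linarith)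
        _ = _ := by ring
  -- summation
  have hDom : Dom f := hfH.dom ha
  have hsumG : Summable (fun ρ : Zt => (mu ρ : ℝ) * (GG f f ((ρ : ℂ) - 1 / 2)).re) := by
    have h1 := Complex.reCLM.summable (summable_GG hDom hDom)
    refine h1.congr fun ρ => ?_
    simp only [Complex.reCLM_apply]
    have : ((mu ρ : ℕ) : ℂ) = ((mu ρ : ℝ) : ℂ) := by push_cast; rfl
    rw [this, Complex.re_ofReal_mul]
  have hs2 : ∀ i, Summable (fun ρ : Zt => (if ρ = r i then ‖c i‖ ^ 2 else 0 : ℝ)) := fun i =>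
    summable_of_ne_finset_zero (s := {r i}) fun b hb => by
      rw [Finset.mem_singleton] at hb
      rw [if_neg hb]
  have hs3 : Summable (fun ρ : Zt => ∑ i, (if ρ = r i then ‖c i‖ ^ 2 else 0 : ℝ)) := summable_sum fun i _ => hs2 i
  have hs4 : Summable (fun ρ : Zt => D * ((mu ρ : ℝ) * (1 / (1 + ((ρ : ℂ).im - 0) ^ 2)))) := (zsummable 0).mul_left _
  have hQ : QQ f ≤ -(7 / 16) * P + D * Z := by
    have h1 : QQ f ≤ ∑' ρ : Zt, (-(7 / 16) * (∑ i, if ρ = r i then ‖c i‖ ^ 2 else 0) + D * ((mu ρ : ℝ) * (1 / (1 + ((ρ : ℂ).im - 0) ^ 2)))) :=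
      hsumG.tsum_le_tsum hpoint ((hs3.mul_left _).add hs4)
    refine h1.trans (le_of_eq ?_)
    rw [(hs3.mul_left _).tsum_add hs4, tsum_mul_left, tsum_mul_left, ← hZ, Summable.tsum_finsetSum fun i _ => hs2 i]
    congr 2
    exact Finset.sum_congr rfl fun i _ => tsum_ite_eq (r i) _
  have hDZ : D * Z ≤ 3 / 16 * P := by
    calc D * Z = C1 ^ 2 * (9 * s * (1 + Hh) * Z) := by rw [hD]; ring
      _ ≤ (k * P) * (9 * s * (1 + Hh) * Z) := mul_le_mul_of_nonneg_right hCP (by positivity)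
      _ = (9 * s * (1 + Hh) * k * Z) * P := by ring
      _ ≤ 3 / 16 * P := mul_le_mul_of_nonneg_right hsm hP0.le
  have hN : N2 f ≤ P * (k * (4 * B)) := by
    refine N2_sum_le hFH c fun i => ?_
    have h1 := N2_add_le (hloc i).memF.1 (hloc i).memH.1
    have h2 := (hloc i).nF
    have h3 := (hloc i).nH
    linarith
  have hηN : η * N2 f ≤ η * (P * (k * (4 * B))) := mul_le_mul_of_nonneg_left hN hη0
  have h5 : η * (P * (k * (4 * B))) = (16 * k * B * η) * P / 4 := by ring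
  have h6 : (16 * k * B * η) * P < 1 * P := mul_lt_mul_of_pos_right hη hP0
  rw [neg_mul]
  linarith

end Pool.Agent.Y23.G.F.K36
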